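import Pool.Agent.TH91.RF.Bch2

/-!
# Graded unitriangular matrices: basic definitions
-/

set_option autoImplicit false

namespace Pool.Agent.TH91.NB

open Finset

variable {V : Type} [Fintype V] [DecidableEq V]

/-- `M` has ones on the diagonal, and all its other nonzero entries `M v w` satisfy
`deg w < deg v`. -/
def Uni (deg : V → ℕ) (M : Matrix V V ℝ) : Prop :=
  (∀ v, M v v = 1) ∧ ∀ v w, v ≠ w → deg v ≤ deg w → M v w = 0

/-- All entries of the matrix are integers. -/
def IntM (M : Matrix V V ℝ) : Prop := ∀ v w, ∃ z : ℤ, M v w = z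

/-- The nonzero entries `M v w` satisfy `deg v = deg w + 1`. -/
def Hom1 {R : Type} [Zero R] (deg : V → ℕ) (M : Matrix V V R) : Prop :=
  ∀ v w, M v w ≠ 0 → deg v = deg w + 1

/-- The unit `exp x` -/
noncomputable def expU {A : Type*} [Ring A] [Algebra ℚ A] (x : A) (hx : IsNilpotent x) : Aˣ where
  val := IsNilpotent.exp x
  inv := IsNilpotent.exp (-x)
  val_inv := IsNilpotent.exp_mul_exp_neg_self hx
  inv_val := IsNilpotent.exp_neg_mul_exp_self hx

theorem Hom1.pow_entry {R : Type} [Ring R] {deg : V → ℕ} {M : Matrix V V R} (h : Hom1 deg M)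
    (k : ℕ) : ∀ v w, (M ^ k) v w ≠ 0 → deg v = deg w + k := by
  induction k with
  | zero =>
    intro v w hvw
    rw [pow_zero] at hvw
    by_cases h1 : v = w
    · rw [h1, add_zero]
    · rw [Matrix.one_apply_ne h1] at hvw
      exact absurd rfl hvw
  | succ k ih =>
    intro v w hvw
    rw [pow_succ, Matrix.mul_apply] at hvw
    obtain ⟨u, _, hu⟩ := Finset.exists_ne_zero_of_sum_ne_zero hvw
    have h1 := ih v u (left_ne_zero_of_mul hu)
    have h2 := h u w (right_ne_zero_of_mul hu)
    omega

theorem Hom1.isNilpotent {R : Type} [Ring R] {deg : V → ℕ} {M : Matrix V V R} (h : Hom1 deg M) :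
    IsNilpotent M := by
  refine ⟨(Finset.univ.sup deg) + 1, ?_⟩
  ext v w
  by_contra hvw
  have h1 := h.pow_entry _ v w hvw
  have h2 : deg v ≤ Finset.univ.sup deg := Finset.le_sup (Finset.mem_univ v)
  omega

/-- The representation of the free group sending the `i`-th generator to `exp (ξ i)` -/
noncomputable def expRep {r : ℕ} {deg : V → ℕ} (ξ : Fin r → Matrix V V ℚ)
    (hξ : ∀ i, Hom1 deg (ξ i)) : FreeGroup (Fin r) →* Matrix V V ℚ :=
  (Units.coeHom (Matrix V V ℚ)).comp (FreeGroup.lift (fun i => expU (ξ i) (hξ i).isNilpotent))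

end Pool.Agent.TH91.NB
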