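import Pool.Agent.W97.TL.Rich
import Pool.Agent.TH91.NB.Defs

/-!
# Polynomial sequences of real numbers, through finite differences
-/

set_option autoImplicit false

namespace Pool.Agent.TH91.NB

open Finset Pool.Agent.W97.TL

/-- the difference operator, as a linear map -/
def Dl : Module.End ℝ (ℕ → ℝ) where
  toFun := dif
  map_add' := by
    intro f g
    funext j
    simp only [dif, Pi.add_apply]
    ring
  map_smul' := by
    intro c f
    funext j
    simp only [dif, Pi.smul_apply, smul_eq_mul, RingHom.id_apply]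
    ring

theorem Dl_apply (f : ℕ → ℝ) : Dl f = dif f := rfl

theorem dif_iter_eq (i : ℕ) (f : ℕ → ℝ) : dif^[i] f = (Dl ^ i) f := by
  rw [Module.End.pow_apply]
  rfl

/-- the `i`-th binomial coefficient of a sequence -/
def bc (i : ℕ) : (ℕ → ℝ) →ₗ[ℝ] ℝ := (LinearMap.proj 0).comp (Dl ^ i)

theorem bc_eq (i : ℕ) (f : ℕ → ℝ) : bc i f = dif^[i] f 0 := by
  rw [dif_iter_eq]
  rfl

/-- `f` is a polynomial of degree at most `k` -/
def Poly (k : ℕ) (f : ℕ → ℝ) : Prop := (Dl ^ (k + 1)) f = 0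

theorem Poly.zero (k : ℕ) : Poly k 0 := by
  unfold Poly
  rw [map_zero]

theorem Poly.add {k : ℕ} {f g : ℕ → ℝ} (hf : Poly k f) (hg : Poly k g) : Poly k (f + g) := by
  unfold Poly at *
  rw [map_add, hf, hg, add_zero]

theorem Poly.sub {k : ℕ} {f g : ℕ → ℝ} (hf : Poly k f) (hg : Poly k g) : Poly k (f - g) := by
  unfold Poly at *
  rw [map_sub, hf, hg, sub_zero]

theorem Poly.neg {k : ℕ} {f : ℕ → ℝ} (hf : Poly k f) : Poly k (-f) := by
  unfold Poly at *
  rw [map_neg, hf, neg_zero]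

theorem Poly.smul {k : ℕ} {f : ℕ → ℝ} (c : ℝ) (hf : Poly k f) : Poly k (c • f) := by
  unfold Poly at *
  rw [map_smul, hf, smul_zero]

theorem Poly.sum {k : ℕ} {ι : Type*} (s : Finset ι) (f : ι → ℕ → ℝ) (hf : ∀ i ∈ s, Poly k (f i)) :
    Poly k (∑ i ∈ s, f i) := by
  unfold Poly at *
  rw [map_sum]
  exact sum_eq_zero hf

theorem Poly.pow_eq_zero {k l : ℕ} {f : ℕ → ℝ} (hf : Poly k f) (h : k < l) : (Dl ^ l) f = 0 := by
  obtain ⟨m, rfl⟩ := Nat.exists_eq_add_of_lt h
  rw [show k + m + 1 = m + (k + 1) by ring, pow_add, Module.End.mul_apply, hf, map_zero]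

theorem Poly.mono {k l : ℕ} {f : ℕ → ℝ} (hf : Poly k f) (h : k ≤ l) : Poly l f :=
  hf.pow_eq_zero (by omega)

theorem Poly.bc_eq_zero {k l : ℕ} {f : ℕ → ℝ} (hf : Poly k f) (h : k < l) : bc l f = 0 := by
  unfold bc
  rw [LinearMap.comp_apply, hf.pow_eq_zero h]
  rfl

theorem poly_const (k : ℕ) (c : ℝ) : Poly k (fun _ => c) := by
  have h0 : Poly 0 (fun _ => c) := by
    unfold Poly
    rw [zero_add, pow_one, Dl_apply]
    funext j
    simp [dif]
  exact h0.mono (Nat.zero_le _)

theorem Poly.dif {k : ℕ} {f : ℕ → ℝ} (hf : Poly (k + 1) f) : Poly k (Dl f) := by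
  unfold Poly at *
  rw [← Module.End.mul_apply, ← pow_succ]
  exact hf

/-- the shift -/
def sh (r : ℕ) : Module.End ℝ (ℕ → ℝ) where
  toFun f := fun j => f (j + r)
  map_add' := by intro f g; rfl
  map_smul' := by intro c f; rfl

theorem sh_apply (r : ℕ) (f : ℕ → ℝ) (j : ℕ) : sh r f j = f (j + r) := rfl

theorem sh_comm (r : ℕ) : Commute (sh r) Dl := by
  ext f j
  simp only [Module.End.mul_apply, sh_apply, Dl_apply, Pool.Agent.W97.TL.dif]
  congr 2
  ring

theorem Poly.shift {k : ℕ} {f : ℕ → ℝ} (r : ℕ) (hf : Poly k f) : Poly k (sh r f) := by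
  unfold Poly at *
  have h := congrArg (fun T : Module.End ℝ (ℕ → ℝ) => T f) ((sh_comm r).pow_right (k + 1)).eq
  simp only [Module.End.mul_apply] at h
  rw [← h, hf, map_zero]

theorem Poly.top_const {k : ℕ} {f : ℕ → ℝ} (hf : Poly k f) (j : ℕ) : (Dl ^ k) f j = bc k f := by
  induction j with
  | zero => rfl
  | succ j ih =>
    rw [← ih]
    have h : Dl ((Dl ^ k) f) = 0 := by
      rw [← Module.End.mul_apply, ← pow_succ']
      exact hf
    have h1 := congrFun h j
    rw [Dl_apply] at h1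
    simp only [Pool.Agent.W97.TL.dif, Pi.zero_apply] at h1
    linarith

theorem Poly.bc_shift {k : ℕ} {f : ℕ → ℝ} (r : ℕ) (hf : Poly k f) : bc k (sh r f) = bc k f := by
  rw [← hf.top_const r]
  have h := congrArg (fun T : Module.End ℝ (ℕ → ℝ) => T f 0) ((sh_comm r).pow_right k).eq
  simp only [Module.End.mul_apply, sh_apply] at h
  rw [zero_add] at h
  exact h.symm

theorem bc_succ (k : ℕ) (f : ℕ → ℝ) : bc (k + 1) f = bc k (Dl f) := by
  unfold bc
  rw [LinearMap.comp_apply, LinearMap.comp_apply, pow_succ, Module.End.mul_apply]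

theorem bc_zero (f : ℕ → ℝ) : bc 0 f = f 0 := rfl

/-- Newton's formula -/
theorem newton (f : ℕ → ℝ) (j : ℕ) : f j = ∑ i ∈ range (j + 1), (j.choose i : ℝ) * bc i f := by
  have h := shift_eq_sum_fwdDiff_iter (1 : ℕ) f j 0
  rw [zero_add, smul_eq_mul, mul_one] at h
  rw [h]
  refine sum_congr rfl fun i _ => ?_
  rw [nsmul_eq_mul, bc_eq]
  rfl

theorem Poly.newton {k : ℕ} {f : ℕ → ℝ} (hf : Poly k f) (j : ℕ) :
    f j = ∑ i ∈ range (k + 1), (j.choose i : ℝ) * bc i f := by
  rw [NB.newton f j]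
  have h1 : ∀ n, k ≤ n → ∑ i ∈ range (k + 1), (j.choose i : ℝ) * bc i f =
      ∑ i ∈ range (n + 1), (j.choose i : ℝ) * bc i f := by
    intro n hn
    refine sum_subset (range_subset_range.2 (by omega)) ?_
    intro i _ hi
    rw [mem_range, not_lt] at hi
    rw [hf.bc_eq_zero (by omega), mul_zero]
  have h2 : ∀ n, j ≤ n → ∑ i ∈ range (j + 1), (j.choose i : ℝ) * bc i f =
      ∑ i ∈ range (n + 1), (j.choose i : ℝ) * bc i f := by
    intro n hn
    refine sum_subset (range_subset_range.2 (by omega)) ?_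
    intro i _ hi
    rw [mem_range, not_lt] at hi
    rw [Nat.choose_eq_zero_of_lt (by omega), Nat.cast_zero, zero_mul]
  rw [h1 (max j k) (le_max_right _ _), h2 (max j k) (le_max_left _ _)]

theorem Poly.ext {k : ℕ} {f g : ℕ → ℝ} (hf : Poly k f) (hg : Poly k g)
    (h : ∀ i ≤ k, bc i f = bc i g) : f = g := by
  funext j
  rw [hf.newton j, hg.newton j]
  refine sum_congr rfl fun i hi => ?_
  rw [mem_range] at hi
  rw [h i (by omega)]

theorem Dl_mul (f g : ℕ → ℝ) : Dl (f * g) = Dl f * sh 1 g + f * Dl g := by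
  funext j
  simp only [Dl_apply, Pool.Agent.W97.TL.dif, Pi.mul_apply, Pi.add_apply, sh_apply]
  ring

theorem Poly.zero_const {f : ℕ → ℝ} (hf : Poly 0 f) : f = fun _ => f 0 := by
  funext j
  have := hf.top_const j
  rwa [pow_zero, Module.End.one_apply] at this

theorem Poly.mul_aux (n : ℕ) : ∀ (a b : ℕ) (f g : ℕ → ℝ), a + b = n → Poly a f → Poly b g →
    Poly n (f * g) ∧ bc n (f * g) = (n.choose a : ℝ) * bc a f * bc b g := by
  induction n with
  | zero =>
    intro a b f g hab hf hg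
    obtain ⟨rfl, rfl⟩ : a = 0 ∧ b = 0 := by omega
    rw [hf.zero_const, hg.zero_const]
    refine ⟨poly_const 0 _, ?_⟩
    simp [bc_zero]
  | succ n ih =>
    intro a b f g hab hf hg
    rcases Nat.eq_zero_or_pos a with rfl | ha
    · obtain rfl : b = n + 1 := by omega
      have e : f * g = (f 0) • g := by
        rw [hf.zero_const]
        rfl
      rw [e]
      refine ⟨hg.smul _, ?_⟩
      rw [map_smul, Nat.choose_zero_right, Nat.cast_one, one_mul, bc_zero, smul_eq_mul]
    rcases Nat.eq_zero_or_pos b with rfl | hb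
    · obtain rfl : a = n + 1 := by omega
      have e : f * g = (g 0) • f := by
        rw [hg.zero_const]
        funext j
        simp [mul_comm]
      rw [e]
      refine ⟨hf.smul _, ?_⟩
      rw [map_smul, Nat.choose_self, Nat.cast_one, one_mul, bc_zero, smul_eq_mul, mul_comm]
    obtain ⟨a, rfl⟩ : ∃ a', a = a' + 1 := ⟨a - 1, by omega⟩
    obtain ⟨b, rfl⟩ : ∃ b', b = b' + 1 := ⟨b - 1, by omega⟩
    obtain ⟨h1, h1'⟩ := ih a (b + 1) (Dl f) (sh 1 g) (by omega) hf.dif (hg.shift 1)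
    obtain ⟨h2, h2'⟩ := ih (a + 1) b f (Dl g) (by omega) hf hg.dif
    constructor
    · unfold Poly
      rw [pow_succ, Module.End.mul_apply, Dl_mul]
      exact h1.add h2
    · rw [bc_succ, Dl_mul, map_add, h1', h2', hg.bc_shift, ← bc_succ, ← bc_succ,
        Nat.choose_succ_succ]
      push_cast
      ring

theorem Poly.mul {a b : ℕ} {f g : ℕ → ℝ} (hf : Poly a f) (hg : Poly b g) : Poly (a + b) (f * g) :=
  (Poly.mul_aux (a + b) a b f g rfl hf hg).1

theorem Poly.bc_mul {a b : ℕ} {f g : ℕ → ℝ} (hf : Poly a f) (hg : Poly b g) :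
    bc (a + b) (f * g) = ((a + b).choose a : ℝ) * bc a f * bc b g :=
  (Poly.mul_aux (a + b) a b f g rfl hf hg).2

/-! ### binomial coefficients -/

theorem Dl_choose (i : ℕ) : Dl (fun j => (j.choose (i + 1) : ℝ)) = fun j => (j.choose i : ℝ) := by
  funext j
  rw [Dl_apply]
  simp only [Pool.Agent.W97.TL.dif]
  rw [Nat.choose_succ_succ]
  push_cast
  ring

theorem poly_choose (i : ℕ) : Poly i (fun j => (j.choose i : ℝ)) := by
  induction i with
  | zero =>
    simp only [Nat.choose_zero_right, Nat.cast_one]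
    exact poly_const 0 1
  | succ i ih =>
    unfold Poly at *
    rw [pow_succ, Module.End.mul_apply, Dl_choose, ih]

theorem bc_choose (l i : ℕ) : bc l (fun j => (j.choose i : ℝ)) = if l = i then 1 else 0 := by
  induction l generalizing i with
  | zero =>
    rw [bc_zero]
    rcases Nat.eq_zero_or_pos i with rfl | hi
    · simp
    · rw [Nat.choose_eq_zero_of_lt hi, if_neg (by omega), Nat.cast_zero]
  | succ l ih =>
    rw [bc_succ]
    rcases Nat.eq_zero_or_pos i with rfl | hi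
    · have : Dl (fun j => (j.choose 0 : ℝ)) = 0 := by
        funext j
        simp [Dl_apply, Pool.Agent.W97.TL.dif]
      rw [this, map_zero, if_neg (by omega)]
    · obtain ⟨i, rfl⟩ : ∃ a', i = a' + 1 := ⟨i - 1, by omega⟩
      rw [Dl_choose, ih]
      simp only [Nat.add_right_cancel_iff]

/-! ### integrality and size -/

theorem bc_int (f : ℕ → ℝ) (hf : ∀ j, ∃ z : ℤ, f j = z) (i : ℕ) : ∃ z : ℤ, bc i f = z := by
  induction i generalizing f with
  | zero => exact hf 0
  | succ i ih =>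
    rw [bc_succ]
    refine ih _ fun j => ?_
    obtain ⟨z, hz⟩ := hf j
    obtain ⟨z', hz'⟩ := hf (j + 1)
    refine ⟨z' - z, ?_⟩
    rw [Dl_apply]
    simp only [Pool.Agent.W97.TL.dif]
    rw [hz, hz']
    push_cast
    ring

theorem bc_le (i : ℕ) (f : ℕ → ℝ) (B : ℝ) (hf : ∀ j ≤ i, |f j| ≤ B) : |bc i f| ≤ 2 ^ i * B := by
  induction i generalizing f B with
  | zero =>
    rw [pow_zero, one_mul]
    exact hf 0 le_rfl
  | succ i ih =>
    rw [bc_succ]
    have := ih (Dl f) (2 * B) (by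
      intro j hj
      rw [Dl_apply]
      simp only [Pool.Agent.W97.TL.dif]
      have h1 := hf j (by omega)
      have h2 := hf (j + 1) (by omega)
      calc |f (j + 1) - f j| ≤ |f (j + 1)| + |f j| := abs_sub _ _
        _ ≤ 2 * B := by linarith)
    calc _ ≤ _ := this
      _ = _ := by rw [pow_succ]; ring

/-! ### scaling of the time -/

/-- the time scaling -/
def sc (M : ℕ) : Module.End ℝ (ℕ → ℝ) where
  toFun f := fun j => f (M * j)
  map_add' := by intro f g; rfl
  map_smul' := by intro c f; rfl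

theorem sc_apply (M : ℕ) (f : ℕ → ℝ) (j : ℕ) : sc M f j = f (M * j) := rfl

theorem Dl_sc (M : ℕ) (f : ℕ → ℝ) : Dl (sc M f) = ∑ r ∈ range M, sc M (sh r (Dl f)) := by
  funext j
  rw [Finset.sum_apply]
  simp only [Dl_apply, Pool.Agent.W97.TL.dif, sc_apply, sh_apply]
  have := Finset.sum_range_sub (fun r => f (M * j + r)) M
  simp only [add_zero] at this
  rw [show M * (j + 1) = M * j + M by ring, ← this]
  rfl

theorem Poly.sc_aux (M k : ℕ) : ∀ f : ℕ → ℝ, Poly k f → Poly k (sc M f) ∧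
    bc k (sc M f) = (M : ℝ) ^ k * bc k f := by
  induction k with
  | zero =>
    intro f hf
    rw [hf.zero_const]
    refine ⟨poly_const 0 _, ?_⟩
    rw [bc_zero, bc_zero, pow_zero, one_mul]
    rfl
  | succ k ih =>
    intro f hf
    have h1 : ∀ r, Poly k (sh r (Dl f)) := fun r => hf.dif.shift r
    have h2 := fun r => ih _ (h1 r)
    constructor
    · unfold Poly
      rw [pow_succ, Module.End.mul_apply, Dl_sc]
      exact Poly.sum _ _ fun r _ => (h2 r).1
    · rw [bc_succ, Dl_sc, map_sum]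
      have h3 : ∀ r ∈ range M, bc k (sc M (sh r (Dl f))) = (M : ℝ) ^ k * bc (k + 1) f := by
        intro r _
        rw [(h2 r).2, hf.dif.bc_shift, ← bc_succ]
      rw [sum_congr rfl h3, sum_const, card_range, nsmul_eq_mul, pow_succ]
      ring

theorem Poly.sc {k : ℕ} {f : ℕ → ℝ} (M : ℕ) (hf : Poly k f) : Poly k (sc M f) :=
  (Poly.sc_aux M k f hf).1

theorem Poly.bc_sc {k : ℕ} {f : ℕ → ℝ} (M : ℕ) (hf : Poly k f) :
    bc k (NB.sc M f) = (M : ℝ) ^ k * bc k f :=
  (Poly.sc_aux M k f hf).2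

theorem bc_zero_sc (M : ℕ) (f : ℕ → ℝ) : bc 0 (sc M f) = bc 0 f := by
  rw [bc_zero, bc_zero, sc_apply, mul_zero]

/-- powers of linear sequences -/
theorem poly_linear_pow (A B : ℝ) (k : ℕ) : Poly k (fun j : ℕ => (A + j * B) ^ k) ∧
    bc k (fun j : ℕ => (A + j * B) ^ k) = k.factorial * B ^ k := by
  have h1 : Poly 1 (fun j : ℕ => A + j * B) ∧ bc 1 (fun j : ℕ => A + j * B) = B := by
    constructor
    · unfold Poly
      funext j
      rw [pow_succ, pow_one, Module.End.mul_apply]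
      simp only [Dl_apply, Pool.Agent.W97.TL.dif, Pi.zero_apply]
      push_cast
      ring
    · rw [bc_eq]
      simp only [Function.iterate_one, Pool.Agent.W97.TL.dif]
      push_cast
      ring
  induction k with
  | zero =>
    simp only [pow_zero]
    refine ⟨poly_const 0 1, ?_⟩
    rw [bc_zero]
    simp
  | succ k ih =>
    have e : (fun j : ℕ => (A + j * B) ^ (k + 1)) =
        (fun j : ℕ => (A + j * B) ^ k) * (fun j : ℕ => A + j * B) := by
      funext j
      rw [Pi.mul_apply, pow_succ]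
    rw [e]
    refine ⟨ih.1.mul h1.1, ?_⟩
    rw [ih.1.bc_mul h1.1, ih.2, h1.2, Nat.choose_succ_self_right, Nat.factorial_succ, pow_succ]
    push_cast
    ring

end Pool.Agent.TH91.NB
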