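import Pool.Agent.TH91.NB.A9

/-!
# The core theorem: recurrence modulo the integral unitriangular matrices
-/

set_option autoImplicit false

namespace Pool.Agent.TH91.NB

open Finset Pool.Agent.W97.TL

variable {V : Type} [Fintype V] [DecidableEq V] {deg : V → ℕ}

theorem hor_eq (D m : ℕ) (δ : ℝ) : Pool.Agent.TH111.J925.hor D m δ = hor D m δ := rfl

/-- The parameters and the colouring. -/
theorem setup {D : ℕ} (hD : ∀ v w, deg v ≤ deg w + D) (L : ℕ) (hL : 0 < L) (ε : ℝ) (hε : 0 < ε) :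
    ∃ (R RB m K G : ℕ) (θ δ : ℕ → ℝ) (η : ℝ) (F : (V → V → ℤ) → Bool),
      0 < R ∧ 0 < RB ∧ 0 < m ∧ 0 < K ∧ R ^ (2 ^ D) ≤ m + 1 ∧ RB ^ (2 ^ D) ≤ K ∧ θ L ≤ ε ∧
      (∀ n < L, 0 < θ n ∧ 0 < δ n ∧
        (C2 D : ℝ) * (m.factorial : ℝ) ^ D * θ n + (m.factorial : ℝ) ^ D * δ n ≤ θ (n + 1) ∧
        (C2 D : ℝ) * (m.factorial : ℝ) ^ D * θ n < 1 / 2 ∧
        (D + 1) * (((hor D m (δ n) : ℝ) + 1) ^ D * θ n) ≤ sep D K / 2 ∧
        (D + 1) * (((hor D m (δ n) : ℝ) + 1) ^ D * θ n) ≤ η / 2) ∧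
      (∀ P : ℕ → Matrix V V ℝ, PS deg P → Red deg P D → Spread deg P R (m + D) η (sep D K) →
        ∀ b : Bool, ∃ j ≤ m + D, F (cell deg G (P j)) = b) ∧
      (∀ n < L, ∀ P : ℕ → Matrix V V ℝ, PS deg P → Red deg P D →
        Spread deg P RB (hor D m (δ n)) η (sep D K) →
        ∀ b : Bool, ∃ j ≤ hor D m (δ n), F (cell deg G (P j)) = b) := by
  set nV := Fintype.card V with hnV
  set cb := CB V D with hcb
  have hcb0 : 0 < cb := CB_pos V D
  set Cc := C2 D + C3 nV D cb + C4 nV D cb with hCc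
  set lam : ℝ := 1 - 1 / 2 ^ (bsz deg D) with hlam
  have hlam0 : 0 ≤ lam := by
    rw [hlam, sub_nonneg, div_le_one (by positivity)]
    exact one_le_pow₀ (by norm_num)
  have hlam1 : lam < 1 := by
    rw [hlam]
    have : (0 : ℝ) < 1 / 2 ^ (bsz deg D) := by positivity
    linarith
  obtain ⟨R, RB, m, K, θ, δ, hR, hRB, hm, hK, hRm, hRBK, hθL, hn, hA, hB⟩ :=
    Pool.Agent.TH111.J925.params D (D + D * D) L ((D + 1) * nV * nV) Cc lam hlam0 hlam1 ε hε
  simp only [hor_eq] at hn hB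
  have hKr : (0 : ℝ) < K := by exact_mod_cast hK
  set cc : ℝ := nV * (nV * ((cb : ℝ) * cb)) with hcc
  have hcc0 : 0 ≤ cc := by positivity
  set ρ := sep D K with hρ
  have hρ0 : 0 < ρ := sep_pos D hK
  set η : ℝ := ρ / (4 * (1 + cc)) with hη
  have hη0 : 0 < η := by positivity
  set G := 96 * 4 ^ D * K with hG
  have hG0 : 0 < G := by positivity
  -- the slow variation
  have hslow : ∀ n < L, (D + 1) * (((hor D m (δ n) : ℝ) + 1) ^ D * θ n) ≤ ρ / (8 * (1 + cc)) := by
    intro n hnL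
    obtain ⟨hθ, hδ, _, _, h5⟩ := hn n hnL
    set J := hor D m (δ n) with hJ
    have hJ1 : (1 : ℝ) ≤ J := by
      have := le_hor D m (δ n)
      have : 1 ≤ J := by omega
      exact_mod_cast this
    have h6 : ((J : ℝ) + 1) ^ D ≤ 2 ^ D * (J : ℝ) ^ D := by
      rw [← mul_pow]
      apply pow_le_pow_left₀ (by positivity)
      linarith
    have h7 : (C3 nV D cb : ℝ) ≤ Cc := by
      have : C3 nV D cb ≤ Cc := by rw [hCc]; omega
      exact_mod_cast this
    have h8 : (C3 nV D cb : ℝ) * θ n * (J : ℝ) ^ D * K ≤ 1 := by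
      refine le_trans ?_ h5
      gcongr
    have h9 : (C3 nV D cb : ℝ) = (D + 1) * 2 ^ D * (128 * 4 ^ D) * (1 + cc) := by
      unfold C3
      push_cast
      rfl
    rw [h9] at h8
    have h10 : ρ / (8 * (1 + cc)) = 1 / (128 * 4 ^ D * (1 + cc) * K) := by
      rw [hρ]
      unfold sep
      field_simp
      norm_num
    rw [h10, le_div_iff₀ (by positivity)]
    calc (D + 1) * (((J : ℝ) + 1) ^ D * θ n) * (128 * 4 ^ D * (1 + cc) * K)
        ≤ (D + 1) * ((2 ^ D * (J : ℝ) ^ D) * θ n) * (128 * 4 ^ D * (1 + cc) * K) := by gcongr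
      _ = (D + 1) * 2 ^ D * (128 * 4 ^ D) * (1 + cc) * θ n * (J : ℝ) ^ D * K := by ring
      _ ≤ 1 := h8
  -- the colouring
  have hLr : (1 : ℝ) ≤ L := by exact_mod_cast hL
  let Jf : Option (Fin L) → ℕ := fun o => o.elim (m + D) (fun n => hor D m (δ n))
  let Rf : Option (Fin L) → ℕ := fun o => o.elim R (fun _ => RB)
  let Qf : Option (Fin L) → ℕ := fun o => Cc * K * (Jf o) ^ (D + D * D) + 1
  have hJf : ∀ o, 0 < Jf o := by
    rintro (_ | n)
    · show 0 < m + D
      omega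
    · show 0 < hor D m (δ n)
      have := le_hor D m (δ n)
      omega
  have hfine := fun o => fine_ok nV D cb K (Jf o) Cc hcb0 hK (hJf o) (by rw [hCc]; omega)
  have hsum : ∑ o, (Qf o : ℝ) ^ ((D + 1) * nV * nV) * (2 * lam ^ (Rf o)) < 1 := by
    rw [Fintype.sum_option]
    have h1 : (Qf none : ℝ) ^ ((D + 1) * nV * nV) * (2 * lam ^ (Rf none)) < 1 / 4 := by
      refine lt_of_le_of_lt ?_ hA
      exact le_mul_of_one_le_left (by positivity) hLr
    have h2 : ∑ n : Fin L, (Qf (some n) : ℝ) ^ ((D + 1) * nV * nV) * (2 * lam ^ (Rf (some n))) ≤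
        ∑ _n : Fin L, 1 / (4 * (L : ℝ)) := by
      refine sum_le_sum fun n _ => ?_
      have := hB n n.2
      rw [le_div_iff₀ (by positivity)]
      have e : (Qf (some n) : ℝ) ^ ((D + 1) * nV * nV) * (2 * lam ^ (Rf (some n))) *
          (4 * (L : ℝ)) = 4 * ((L : ℝ) * (((Cc * K * (hor D m (δ n)) ^ (D + D * D) + 1 : ℕ) : ℝ) ^
            ((D + 1) * nV * nV) * (2 * lam ^ RB))) := by
        simp only [Qf, Rf, Jf, Option.elim]
        ring
      rw [e]
      linarith
    rw [sum_const, card_univ, Fintype.card_fin, nsmul_eq_mul] at h2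
    have e : (L : ℝ) * (1 / (4 * (L : ℝ))) = 1 / 4 := by
      field_simp
    linarith
  obtain ⟨F, hF⟩ := colouring (deg := deg) hD Jf Rf Qf (fun o => Nat.succ_pos _) hG0 (η := η)
    (ρ := ρ) hη0.le (by
      rw [hη, div_le_one (by positivity)]
      have : ρ ≤ 1 := by
        rw [hρ]
        unfold sep
        rw [div_le_one (by positivity)]
        have h1 : (1 : ℝ) ≤ 4 ^ D := one_le_pow₀ (by norm_num)
        have h2 : (1 : ℝ) ≤ K := by exact_mod_cast hK
        nlinarith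
      linarith) (fun o => (hfine o).1) (fun o => (hfine o).2) (by
      have e1 : 3 / (G : ℝ) = ρ / 2 := by
        rw [hG, hρ]
        unfold sep
        push_cast
        field_simp
        norm_num
      have e2 : (1 + (nV : ℝ) * (nV * ((cb : ℝ) * cb))) * η = ρ / 4 := by
        rw [hη]
        change (1 + cc) * (ρ / (4 * (1 + cc))) = ρ / 4
        field_simp
      change 3 / (G : ℝ) + (1 + (nV : ℝ) * (nV * ((cb : ℝ) * cb))) * η < ρ
      rw [e1, e2]
      linarith) hsum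
  refine ⟨R, RB, m, K, G, θ, δ, η, F, hR, hRB, hm, hK, hRm, hRBK, hθL, ?_, ?_, ?_⟩
  · intro n hnL
    obtain ⟨hθ, hδ, h3, h4, h5⟩ := hn n hnL
    have h7 : (C2 D : ℝ) ≤ Cc := by
      have : C2 D ≤ Cc := by rw [hCc]; omega
      exact_mod_cast this
    have h8 : (C2 D : ℝ) * (m.factorial : ℝ) ^ D * θ n ≤ Cc * (m.factorial : ℝ) ^ D * θ n := by
      gcongr
    have h9 := hslow n hnL
    refine ⟨hθ, hδ, by linarith, by linarith, h9.trans ?_, h9.trans ?_⟩
    · rw [div_le_div_iff₀ (by positivity) (by norm_num)]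
      nlinarith
    · apply le_of_eq
      rw [hη]
      field_simp
      norm_num
  · intro P hP hred hs b
    exact hF none P hP hred hs b
  · intro n hnL P hP hred hs b
    exact hF (some ⟨n, hnL⟩) P hP hred hs b

/-- **The core theorem.** -/
theorem main_hom {S : Set ℕ} (hS : TwoLarge S) (V : Type) [Fintype V] [DecidableEq V]
    (deg : V → ℕ) (X : Matrix V V ℝ) (hX : Hom1 deg X) (ε : ℝ) (hε : 0 < ε) :
    ∃ s ∈ S, ∃ γ : Matrix V V ℝ, Uni deg γ ∧ IntM γ ∧
      ∀ v w, |(IsNilpotent.exp ((s : ℝ) • X) * γ) v w - (1 : Matrix V V ℝ) v w| < ε := by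
  set D := univ.sup deg with hDdef
  have hD : ∀ v w, deg v ≤ deg w + D := by
    intro v w
    have : deg v ≤ D := Finset.le_sup (Finset.mem_univ v)
    omega
  set L := (D + 1) * (D + 1) with hL
  have hDf : (0 : ℝ) < (D.factorial : ℝ) := by exact_mod_cast Nat.factorial_pos D
  obtain ⟨R, RB, m, K, G, θ, δ, η, F, hR, hRB, hm, hK, hRm, hRBK, hθL, hn, hFA, hFB⟩ :=
    setup (deg := deg) hD L (Nat.mul_pos (Nat.succ_pos _) (Nat.succ_pos _))
      (ε / (2 * (D.factorial : ℝ) ^ D)) (by positivity)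
  set M := m.factorial with hM
  have hM1 : 1 ≤ M := Nat.factorial_pos m
  have hMr : (0 : ℝ) < M := by exact_mod_cast hM1
  set M₀ : ℝ := (M : ℝ) ^ L * D.factorial with hM₀
  have hM₀0 : 0 < M₀ := by positivity
  set Jm : ℕ := m + D + ∑ n ∈ range L, hor D m (δ n) with hJm
  obtain ⟨a, s, ha, hs, hmono⟩ := hS (fun k => F (cell deg G (ex X ((k : ℝ) / M₀))))
    (M ^ L * Jm + 1)
  set A : ℝ := a / M₀ with hA
  set B : ℝ := s / M₀ with hB
  set P : ℕ → Matrix V V ℝ := fun j => ex X (A + j * B) with hP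
  have hPS : PS deg P := (ps_ex hX A B).1
  have hPc : ∀ j : ℕ, P j = ex X (((a + j * s : ℕ) : ℝ) / M₀) := by
    intro j
    simp only [hP, hA, hB]
    congr 1
    push_cast
    ring
  have key : ∀ n ≤ L, ∃ Q : ℕ → Matrix V V ℝ, PS deg Q ∧ (∀ j, IntM (Q j)) ∧
      Red deg (fun j => P (M ^ n * j) * Q j) D ∧
      Small deg D (fun j => P (M ^ n * j) * Q j) n (θ n) := by
    intro n
    induction n with
    | zero =>
      intro _
      obtain ⟨Q, hQ, hi, hr⟩ := exists_seq_red (hPS.sc (M ^ 0)) D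
      exact ⟨Q, hQ, hi, hr, fun v w _ i _ _ h => absurd h (Nat.not_lt_zero _)⟩
    | succ n ih =>
      intro hnL
      obtain ⟨Q, hQ, hi, hr, hsm⟩ := ih (by omega)
      obtain ⟨hθ, hδ, h3, h4, h5, h6⟩ := hn n (by omega)
      have hPS' : PS deg (fun j => P (M ^ n * j) * Q j) := (hPS.sc (M ^ n)).mul hQ
      have hcol : ∀ j, j ≤ Jm → F (cell deg G (P (M ^ n * j) * Q j)) =
          F (cell deg G (ex X ((a : ℝ) / M₀))) := by
        intro j hj
        rw [cell_mul G (hPS.uni _) (hQ.uni _) (hi _), hPc]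
        refine hmono (M ^ n * j) ?_
        have h7 : M ^ n ≤ M ^ L := Nat.pow_le_pow_right hM1 (by omega)
        have h8 : M ^ n * j ≤ M ^ L * Jm := Nat.mul_le_mul h7 hj
        omega
      by_cases hbig : ∃ v w, deg w < deg v ∧ ∃ i, 1 ≤ i ∧ i ≤ deg v - deg w ∧
          rk D (deg v - deg w) i = n ∧
          δ n ≤ nn (m.factorial * bc i (fun j => (P (M ^ n * j) * Q j) v w))
      · exfalso
        have hhor : hor D m (δ n) ≤ ∑ n ∈ range L, hor D m (δ n) :=
          single_le_sum (f := fun n => hor D m (δ n)) (fun _ _ => Nat.zero_le _)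
            (mem_range.2 (by omega))
        rcases rich_spread hD hPS' hθ.le hsm hR hRB hK hδ hbig hRm hRBK h5 h6 with h7 | h7
        · obtain ⟨j, hj, h8⟩ := hFA _ hPS' hr h7 (!(F (cell deg G (ex X ((a : ℝ) / M₀)))))
          rw [hcol j (by omega)] at h8
          simp at h8
        · obtain ⟨j, hj, h8⟩ := hFB n (by omega) _ hPS' hr h7
            (!(F (cell deg G (ex X ((a : ℝ) / M₀)))))
          rw [hcol j (by omega)] at h8
          simp at h8
      · push Not at hbig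
        obtain ⟨Q', hQ', hi', hr', hsm'⟩ := stage hD hPS' hr hθ.le hδ.le hsm M hM1
          (fun v w h1 i h2 h7 h8 => hbig v w h1 i h2 h7 h8) h4
        have e : ∀ j, P (M ^ n * (M * j)) * Q (M * j) * Q' j =
            P (M ^ (n + 1) * j) * (Q (M * j) * Q' j) := by
          intro j
          rw [mul_assoc, ← mul_assoc (M ^ n) M j, ← pow_succ]
        refine ⟨fun j => Q (M * j) * Q' j, (hQ.sc M).mul hQ', fun j => (hi _).mul (hi' j), ?_, ?_⟩
        · simpa only [e] using hr'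
        · have := hsm'.mono h3
          simpa only [e] using this
  obtain ⟨Q, hQ, hi, hr, hsm⟩ := key L le_rfl
  have hθ0 : 0 ≤ ε / (2 * (D.factorial : ℝ) ^ D) := by positivity
  obtain ⟨γ, hγ, hγi, h⟩ := final_step hD hX A B (M ^ L) Q hQ hi hθ0 (by
    intro v w hvw
    have hDvw := hD v w
    refine (hsm v w hvw (deg v - deg w) (by omega) le_rfl ?_).trans hθL
    have h1 : deg v ≤ D := Finset.le_sup (Finset.mem_univ v)
    unfold rk
    have h2 : (deg v - deg w) * (D + 1) ≤ D * (D + 1) := Nat.mul_le_mul_right _ (by omega)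
    have h3 : L = D * (D + 1) + (D + 1) := by rw [hL]; ring
    omega)
  refine ⟨s, hs, γ, hγ, hγi, fun v w => ?_⟩
  have e : ex X ((s : ℝ)) = ex X ((D.factorial : ℝ) * (((M ^ L : ℕ) : ℝ) * B)) := by
    congr 1
    rw [hB, hM₀]
    push_cast
    field_simp
  have e' : IsNilpotent.exp ((s : ℝ) • X) = ex X (s : ℝ) := rfl
  rw [e', e]
  refine lt_of_le_of_lt (h v w) ?_
  have e2 : (D.factorial : ℝ) ^ D * (ε / (2 * (D.factorial : ℝ) ^ D)) = ε / 2 := by
    field_simp
  rw [e2]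
  linarith

end Pool.Agent.TH91.NB
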