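import Pool.Agent.TH91.NB.A1

/-!
# Graded unitriangular matrices
-/

set_option autoImplicit false

namespace Pool.Agent.TH91.NB

open Finset Pool.Agent.W97.TL

variable {V : Type} [Fintype V] [DecidableEq V] {deg : V → ℕ}

/-- the indices strictly between `w` and `v` -/
def mid (deg : V → ℕ) (v w : V) : Finset V := univ.filter (fun u => deg w < deg u ∧ deg u < deg v)

theorem mem_mid {v w u : V} : u ∈ mid deg v w ↔ deg w < deg u ∧ deg u < deg v := by
  simp [mid]

theorem card_mid_le (v w : V) : ((mid deg v w).card : ℝ) ≤ Fintype.card V := by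
  exact_mod_cast card_le_univ _

theorem Uni.one : Uni deg (1 : Matrix V V ℝ) :=
  ⟨fun v => Matrix.one_apply_eq v, fun _ _ h _ => Matrix.one_apply_ne h⟩

theorem IntM.one : IntM (1 : Matrix V V ℝ) := by
  intro v w
  by_cases h : v = w
  · exact ⟨1, by rw [h, Matrix.one_apply_eq]; norm_num⟩
  · exact ⟨0, by rw [Matrix.one_apply_ne h]; norm_num⟩

theorem IntM.mul {M M' : Matrix V V ℝ} (h : IntM M) (h' : IntM M') : IntM (M * M') := by
  intro v w
  choose a ha using h
  choose b hb using h'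
  refine ⟨∑ u, a v u * b u w, ?_⟩
  rw [Matrix.mul_apply]
  push_cast
  exact sum_congr rfl fun u _ => by rw [ha, hb]

theorem IntM.add {M M' : Matrix V V ℝ} (h : IntM M) (h' : IntM M') : IntM (M + M') := by
  intro v w
  obtain ⟨a, ha⟩ := h v w
  obtain ⟨b, hb⟩ := h' v w
  exact ⟨a + b, by rw [Matrix.add_apply, ha, hb]; push_cast; rfl⟩

theorem IntM.neg {M : Matrix V V ℝ} (h : IntM M) : IntM (-M) := by
  intro v w
  obtain ⟨a, ha⟩ := h v w
  exact ⟨-a, by rw [Matrix.neg_apply, ha]; push_cast; rfl⟩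

theorem IntM.zero : IntM (0 : Matrix V V ℝ) := fun _ _ => ⟨0, by simp⟩

theorem IntM.pow {M : Matrix V V ℝ} (h : IntM M) (k : ℕ) : IntM (M ^ k) := by
  induction k with
  | zero => rw [pow_zero]; exact IntM.one
  | succ k ih => rw [pow_succ]; exact ih.mul h

theorem IntM.sum {ι : Type*} (s : Finset ι) (f : ι → Matrix V V ℝ) (h : ∀ i ∈ s, IntM (f i)) :
    IntM (∑ i ∈ s, f i) := by
  classical
  induction s using Finset.induction_on with
  | empty => rw [sum_empty]; exact IntM.zero
  | insert a s ha ih =>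
    rw [sum_insert ha]
    exact (h a (mem_insert_self a s)).add (ih fun i hi => h i (mem_insert_of_mem hi))

theorem mul_entry {M M' : Matrix V V ℝ} (h : Uni deg M) (h' : Uni deg M') {v w : V} (hvw : v ≠ w) :
    (M * M') v w = M v w + M' v w + ∑ u ∈ mid deg v w, M v u * M' u w := by
  rw [Matrix.mul_apply]
  have h1 : v ∉ mid deg v w := by rw [mem_mid]; omega
  have h2 : w ∉ mid deg v w := by rw [mem_mid]; omega
  have h3 : v ∉ insert w (mid deg v w) := by
    rw [mem_insert, not_or]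
    exact ⟨hvw, h1⟩
  rw [← sum_subset (subset_univ (insert v (insert w (mid deg v w)))), sum_insert h3, sum_insert h2,
    h.1, h'.1]
  · ring
  · intro u _ hu
    rw [mem_insert, mem_insert, mem_mid, not_or, not_or] at hu
    by_cases h4 : deg w < deg u
    · rw [h.2 v u (Ne.symm hu.1) (by omega), zero_mul]
    · rw [h'.2 u w hu.2.1 (by omega), mul_zero]

theorem Uni.mul {M M' : Matrix V V ℝ} (h : Uni deg M) (h' : Uni deg M') : Uni deg (M * M') := by
  constructor
  · intro v
    rw [Matrix.mul_apply, sum_eq_single_of_mem v (mem_univ v), h.1, h'.1, mul_one]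
    intro u _ hu
    rcases le_total (deg v) (deg u) with h1 | h1
    · rw [h.2 v u (Ne.symm hu) h1, zero_mul]
    · rw [h'.2 u v hu h1, mul_zero]
  · intro v w hvw hd
    rw [mul_entry h h' hvw, h.2 v w hvw hd, h'.2 v w hvw hd]
    rw [sum_eq_zero, add_zero, add_zero]
    intro u hu
    rw [mem_mid] at hu
    omega

/-- The strictly graded matrices -/
def SG (deg : V → ℕ) (N : Matrix V V ℝ) : Prop := ∀ v w, deg v ≤ deg w → N v w = 0

theorem Uni.sg {M : Matrix V V ℝ} (h : Uni deg M) : SG deg (1 - M) := by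
  intro v w hd
  rw [Matrix.sub_apply]
  by_cases hvw : v = w
  · rw [hvw, h.1, Matrix.one_apply_eq, sub_self]
  · rw [h.2 v w hvw hd, Matrix.one_apply_ne hvw, sub_zero]

theorem SG.uni {N : Matrix V V ℝ} (h : SG deg N) : Uni deg (1 + N) := by
  constructor
  · intro v
    rw [Matrix.add_apply, h v v le_rfl, Matrix.one_apply_eq, add_zero]
  · intro v w hvw hd
    rw [Matrix.add_apply, h v w hd, Matrix.one_apply_ne hvw, add_zero]

theorem SG.pow_entry {N : Matrix V V ℝ} (h : SG deg N) (k : ℕ) :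
    ∀ v w, (N ^ k) v w ≠ 0 → deg w + k ≤ deg v := by
  induction k with
  | zero =>
    intro v w hvw
    rw [pow_zero] at hvw
    by_cases h1 : v = w
    · rw [h1, add_zero]
    · rw [Matrix.one_apply_ne h1] at hvw
      exact absurd rfl hvw
  | succ k ih =>
    intro v w hvw
    rw [pow_succ, Matrix.mul_apply] at hvw
    obtain ⟨u, _, hu⟩ := Finset.exists_ne_zero_of_sum_ne_zero hvw
    have h1 := ih v u (left_ne_zero_of_mul hu)
    have h2 : ¬ deg u ≤ deg w := fun hd => (right_ne_zero_of_mul hu) (h u w hd)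
    omega

theorem SG.pow_zero {N : Matrix V V ℝ} (h : SG deg N) : N ^ (univ.sup deg + 1) = 0 := by
  ext v w
  by_contra hvw
  have h1 := h.pow_entry _ v w hvw
  have h2 : deg v ≤ Finset.univ.sup deg := Finset.le_sup (Finset.mem_univ v)
  omega

theorem SG.pow {N : Matrix V V ℝ} (h : SG deg N) {k : ℕ} (hk : 1 ≤ k) : SG deg (N ^ k) := by
  intro v w hd
  by_contra hvw
  have := h.pow_entry k v w hvw
  omega

theorem SG.sum {ι : Type*} (s : Finset ι) (f : ι → Matrix V V ℝ) (h : ∀ i ∈ s, SG deg (f i)) :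
    SG deg (∑ i ∈ s, f i) := by
  intro v w hd
  rw [Matrix.sum_apply]
  exact sum_eq_zero fun i hi => h i hi v w hd

/-- inverses -/
theorem exists_inv {M : Matrix V V ℝ} (h : Uni deg M) : ∃ M' : Matrix V V ℝ, Uni deg M' ∧
    (IntM M → IntM M') ∧ M * M' = 1 ∧ M' * M = 1 := by
  set N := 1 - M with hN
  set m := univ.sup deg + 1 with hm
  have hNm : N ^ m = 0 := h.sg.pow_zero
  have e : M = 1 - N := by rw [hN]; abel
  refine ⟨∑ i ∈ range m, N ^ i, ?_, ?_, ?_, ?_⟩
  · rw [hm, sum_range_succ', _root_.pow_zero, add_comm]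
    refine SG.uni (SG.sum _ _ fun i _ => h.sg.pow (by omega))
  · intro hi
    refine IntM.sum _ _ fun i _ => IntM.pow ?_ i
    rw [hN, sub_eq_add_neg]
    exact IntM.one.add hi.neg
  · rw [e, mul_neg_geom_sum, hNm, sub_zero]
  · rw [e, geom_sum_mul_neg, hNm, sub_zero]

/-- perturbation at one level -/
theorem mul_level {x N : Matrix V V ℝ} (hx : Uni deg x) {k : ℕ}
    (hN : ∀ v w, deg v ≠ deg w + (k + 1) → N v w = 0) {v w : V} (h : deg v ≤ deg w + (k + 1)) :
    (x * N) v w = N v w := by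
  rw [Matrix.mul_apply, sum_eq_single_of_mem v (mem_univ v), hx.1, one_mul]
  intro u _ hu
  by_cases h1 : deg u = deg w + (k + 1)
  · rw [hx.2 v u (Ne.symm hu) (by omega), zero_mul]
  · rw [hN u w h1, mul_zero]

theorem exists_red_aux {x : Matrix V V ℝ} (hx : Uni deg x) (k : ℕ) :
    ∃ γ : Matrix V V ℝ, Uni deg γ ∧ IntM γ ∧ ∀ v w, deg w < deg v → deg v ≤ deg w + k →
      0 ≤ (x * γ) v w ∧ (x * γ) v w < 1 := by
  induction k with
  | zero => exact ⟨1, Uni.one, IntM.one, fun v w h1 h2 => by omega⟩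
  | succ k ih =>
    obtain ⟨γ, hγ, hi, h⟩ := ih
    set N : Matrix V V ℝ := fun v w => if deg v = deg w + (k + 1) then
      -((⌊(x * γ) v w⌋ : ℤ) : ℝ) else 0 with hN
    have hN0 : ∀ v w, deg v ≠ deg w + (k + 1) → N v w = 0 := fun v w hvw => if_neg hvw
    have hsg : SG deg N := fun v w hd => hN0 v w (by omega)
    refine ⟨γ + N, ?_, ?_, ?_⟩
    · constructor
      · intro v
        rw [Matrix.add_apply, hγ.1, hsg v v le_rfl, add_zero]
      · intro v w hvw hd
        rw [Matrix.add_apply, hγ.2 v w hvw hd, hsg v w hd, add_zero]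
    · refine hi.add fun v w => ?_
      by_cases hvw : deg v = deg w + (k + 1)
      · exact ⟨-⌊(x * γ) v w⌋, by simp only [hN]; rw [if_pos hvw]; push_cast; rfl⟩
      · exact ⟨0, by rw [hN0 v w hvw]; norm_num⟩
    · intro v w hvw hd
      rw [mul_add, Matrix.add_apply, mul_level hx hN0 (by omega)]
      by_cases h1 : deg v = deg w + (k + 1)
      · simp only [hN]
        rw [if_pos h1, ← sub_eq_add_neg]
        exact ⟨Int.fract_nonneg _, Int.fract_lt_one _⟩
      · rw [hN0 v w h1, add_zero]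
        exact h v w hvw (by omega)

/-- fully reduced matrices -/
def FR (deg : V → ℕ) (x : Matrix V V ℝ) : Prop := ∀ v w, deg w < deg v → 0 ≤ x v w ∧ x v w < 1

theorem exists_red {x : Matrix V V ℝ} (hx : Uni deg x) :
    ∃ γ : Matrix V V ℝ, Uni deg γ ∧ IntM γ ∧ FR deg (x * γ) := by
  obtain ⟨γ, h1, h2, h3⟩ := exists_red_aux hx (univ.sup deg)
  refine ⟨γ, h1, h2, fun v w hvw => h3 v w hvw ?_⟩
  have : deg v ≤ Finset.univ.sup deg := Finset.le_sup (Finset.mem_univ v)
  omega

/-- uniqueness of the reduction -/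
theorem red_unique {x γ : Matrix V V ℝ} (hx : Uni deg x) (hγ : Uni deg γ) (hi : IntM γ)
    (h : FR deg x) (h' : FR deg (x * γ)) : γ = 1 := by
  have key : ∀ k, ∀ v w, v ≠ w → deg v ≤ deg w + k → γ v w = 0 := by
    intro k
    induction k with
    | zero => exact fun v w hvw hd => hγ.2 v w hvw (by omega)
    | succ k ih =>
      intro v w hvw hd
      rcases le_or_gt (deg v) (deg w) with h1 | h1
      · exact hγ.2 v w hvw h1
      have h2 := h' v w h1
      rw [mul_entry hx hγ hvw, sum_eq_zero, add_zero] at h2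
      · obtain ⟨z, hz⟩ := hi v w
        have h3 := h v w h1
        rw [hz] at h2 ⊢
        have h4 : (z : ℝ) < 1 := by linarith
        have h5 : (-1 : ℝ) < z := by linarith
        have h6 : z < 1 := by exact_mod_cast h4
        have h7 : -1 < z := by exact_mod_cast h5
        have : z = 0 := by omega
        rw [this]
        norm_num
      · intro u hu
        rw [mem_mid] at hu
        rw [ih u w (by rintro rfl; omega) (by omega), mul_zero]
  ext v w
  by_cases hvw : v = w
  · rw [hvw, hγ.1, Matrix.one_apply_eq]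
  · rw [Matrix.one_apply_ne hvw]
    exact key (deg v) v w hvw (by omega)

/-- the reduction of a matrix (and `1` for matrices that are not unitriangular) -/
noncomputable def red (deg : V → ℕ) (x : Matrix V V ℝ) : Matrix V V ℝ :=
  open Classical in
  if hx : Uni deg x then x * (exists_red hx).choose else 1

theorem red_spec {x : Matrix V V ℝ} (hx : Uni deg x) : ∃ γ : Matrix V V ℝ, Uni deg γ ∧ IntM γ ∧
    red deg x = x * γ ∧ FR deg (red deg x) := by
  have h := (exists_red hx).choose_spec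
  refine ⟨_, h.1, h.2.1, ?_, ?_⟩
  · unfold red
    rw [dif_pos hx]
  · unfold red
    rw [dif_pos hx]
    exact h.2.2

theorem red_mul {x γ : Matrix V V ℝ} (hx : Uni deg x) (hγ : Uni deg γ) (hi : IntM γ) :
    red deg (x * γ) = red deg x := by
  obtain ⟨a, ha, hai, h1, h2⟩ := red_spec hx
  obtain ⟨b, hb, hbi, h3, h4⟩ := red_spec (hx.mul hγ)
  obtain ⟨a', ha', hai', haa, haa'⟩ := exists_inv ha
  have e : red deg (x * γ) = red deg x * (a' * (γ * b)) := by
    rw [h3, h1]
    calc x * γ * b = x * 1 * (γ * b) := by rw [mul_one, mul_assoc]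
      _ = x * (a * a') * (γ * b) := by rw [haa]
      _ = x * a * (a' * (γ * b)) := by simp only [mul_assoc]
  have hr : Uni deg (red deg x) := by rw [h1]; exact hx.mul ha
  have h5 := red_unique hr (ha'.mul (hγ.mul hb)) ((hai' hai).mul (hi.mul hbi)) h2 (by
    rw [← e]; exact h4)
  rw [e, h5, mul_one]

/-! ### bounds -/

/-- the bound for the translating element -/
theorem bd {x γ : Matrix V V ℝ} (hx : Uni deg x) (hγ : Uni deg γ) (A : ℝ) (hA : 1 ≤ A) (k : ℕ)
    (h1 : ∀ v w, deg v ≤ deg w + k → |x v w| ≤ A)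
    (h2 : ∀ v w, deg v ≤ deg w + k → |(x * γ) v w| ≤ A) :
    ∀ v w, deg v ≤ deg w + k → |γ v w| ≤ (((Fintype.card V : ℝ) + 2) * A) ^ (deg v - deg w) := by
  set n : ℝ := (Fintype.card V : ℝ) with hn
  have hn0 : 0 ≤ n := Nat.cast_nonneg _
  have hB : 1 ≤ (n + 2) * A := by nlinarith
  have key : ∀ l, ∀ v w, deg v ≤ deg w + k → deg v - deg w = l →
      |γ v w| ≤ ((n + 2) * A) ^ l := by
    intro l
    induction l using Nat.strong_induction_on with
    | _ l ih =>
    intro v w hk hl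
    by_cases hvw : v = w
    · rw [hvw, hγ.1, abs_one]
      exact one_le_pow₀ hB
    rcases le_or_gt (deg v) (deg w) with hd | hd
    · rw [hγ.2 v w hvw hd, abs_zero]
      positivity
    obtain ⟨l', rfl⟩ : ∃ l', l = l' + 1 := ⟨l - 1, by omega⟩
    have h3 := mul_entry hx hγ hvw
    have h4 : γ v w = (x * γ) v w - x v w - ∑ u ∈ mid deg v w, x v u * γ u w := by
      rw [h3]; ring
    have h5 : |∑ u ∈ mid deg v w, x v u * γ u w| ≤ n * (A * ((n + 2) * A) ^ l') := by
      refine (abs_sum_le_sum_abs _ _).trans ?_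
      have h6 : ∀ u ∈ mid deg v w, |x v u * γ u w| ≤ A * ((n + 2) * A) ^ l' := by
        intro u hu
        rw [mem_mid] at hu
        rw [abs_mul]
        refine mul_le_mul (h1 v u (by omega)) ?_ (abs_nonneg _) (by linarith)
        refine (ih (deg u - deg w) (by omega) u w (by omega) rfl).trans ?_
        exact pow_le_pow_right₀ hB (by omega)
      refine (sum_le_sum h6).trans ?_
      rw [sum_const, nsmul_eq_mul]
      exact mul_le_mul_of_nonneg_right (card_mid_le v w) (by positivity)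
    have h7 : 1 ≤ ((n + 2) * A) ^ l' := one_le_pow₀ hB
    calc |γ v w| ≤ |(x * γ) v w - x v w| + |∑ u ∈ mid deg v w, x v u * γ u w| := by
          rw [h4]; exact abs_sub _ _
      _ ≤ (|(x * γ) v w| + |x v w|) + n * (A * ((n + 2) * A) ^ l') := by
          gcongr
          exact abs_sub _ _
      _ ≤ (A + A) + n * (A * ((n + 2) * A) ^ l') := by
          gcongr
          · exact h2 v w hk
          · exact h1 v w hk
      _ ≤ (A * ((n + 2) * A) ^ l' + A * ((n + 2) * A) ^ l') + n * (A * ((n + 2) * A) ^ l') := by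
          have : A ≤ A * ((n + 2) * A) ^ l' := le_mul_of_one_le_right (by linarith) h7
          linarith
      _ = ((n + 2) * A) ^ (l' + 1) := by rw [pow_succ]; ring
  intro v w hk
  exact key _ v w hk rfl

theorem entry_mul_le {A B : Matrix V V ℝ} (a b : ℝ) (hb : 0 ≤ b) {v w : V}
    (h1 : ∀ u, |A v u| ≤ a) (h2 : ∀ u, |B u w| ≤ b) :
    |(A * B) v w| ≤ Fintype.card V * (a * b) := by
  rw [Matrix.mul_apply]
  refine (abs_sum_le_sum_abs _ _).trans ?_
  have h3 : ∀ u ∈ (univ : Finset V), |A v u * B u w| ≤ a * b := by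
    intro u _
    rw [abs_mul]
    exact mul_le_mul (h1 u) (h2 u) (abs_nonneg _) ((abs_nonneg _).trans (h1 u))
  refine (sum_le_sum h3).trans ?_
  rw [sum_const, nsmul_eq_mul, card_univ]

/-- separation of two points of the quotient -/
theorem separation {x₀ x₁ γ₀ γ₁ : Matrix V V ℝ} (hx₀ : Uni deg x₀) (hx₁ : Uni deg x₁)
    (hγ₀ : Uni deg γ₀) (hγ₁ : Uni deg γ₁) (hi₀ : IntM γ₀) (hi₁ : IntM γ₁) (k : ℕ) (hk : 1 ≤ k)
    (η κ c : ℝ) (hη : 0 ≤ η) (hc : 0 ≤ c)
    (h1 : ∀ v w, deg v < deg w + k → |x₀ v w - x₁ v w| ≤ η)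
    (h2 : ∀ v w, deg v < deg w + k → |γ₀ v w| ≤ c)
    (h3 : ∀ v w, deg v ≤ deg w + k → |(x₀ * γ₀) v w - (x₁ * γ₁) v w| ≤ κ)
    (h4 : κ + (1 + Fintype.card V * c) * η < 1) :
    ∀ v w, deg v = deg w + k → nn (x₀ v w - x₁ v w) ≤ κ + (1 + Fintype.card V * c) * η := by
  set n : ℝ := (Fintype.card V : ℝ) with hn
  have hn0 : 0 ≤ n := Nat.cast_nonneg _
  have step : ∀ v w, v ≠ w → deg v ≤ deg w + k → (∀ u, u ∈ mid deg v w → γ₀ u w = γ₁ u w) →
      |(x₀ v w - x₁ v w) + (γ₀ v w - γ₁ v w)| ≤ κ + n * c * η := by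
    intro v w hvw hd hu
    have e0 := mul_entry hx₀ hγ₀ hvw
    have e1 := mul_entry hx₁ hγ₁ hvw
    have e2 : (x₀ v w - x₁ v w) + (γ₀ v w - γ₁ v w) =
        ((x₀ * γ₀) v w - (x₁ * γ₁) v w) - ∑ u ∈ mid deg v w, (x₀ v u - x₁ v u) * γ₀ u w := by
      have e3 : ∑ u ∈ mid deg v w, (x₀ v u - x₁ v u) * γ₀ u w =
          ∑ u ∈ mid deg v w, x₀ v u * γ₀ u w - ∑ u ∈ mid deg v w, x₁ v u * γ₁ u w := by
        rw [← sum_sub_distrib]
        refine sum_congr rfl fun u h => ?_
        rw [← hu u h]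
        ring
      rw [e0, e1, e3]
      ring
    rw [e2]
    refine (abs_sub _ _).trans ?_
    have h5 : |∑ u ∈ mid deg v w, (x₀ v u - x₁ v u) * γ₀ u w| ≤ n * (η * c) := by
      refine (abs_sum_le_sum_abs _ _).trans ?_
      have h6 : ∀ u ∈ mid deg v w, |(x₀ v u - x₁ v u) * γ₀ u w| ≤ η * c := by
        intro u hu
        rw [mem_mid] at hu
        rw [abs_mul]
        exact mul_le_mul (h1 v u (by omega)) (h2 u w (by omega)) (abs_nonneg _) hη
      refine (sum_le_sum h6).trans ?_
      rw [sum_const, nsmul_eq_mul]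
      exact mul_le_mul_of_nonneg_right (card_mid_le v w) (by positivity)
    have h7 := h3 v w hd
    have h8 : n * (η * c) = n * c * η := by ring
    linarith
  have low : ∀ l, l < k → ∀ v w, deg v ≤ deg w + l → γ₀ v w = γ₁ v w := by
    intro l
    induction l with
    | zero =>
      intro _ v w hd
      by_cases hvw : v = w
      · rw [hvw, hγ₀.1, hγ₁.1]
      · rw [hγ₀.2 v w hvw (by omega), hγ₁.2 v w hvw (by omega)]
    | succ l ih =>
      intro hl v w hd
      by_cases hvw : v = w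
      · rw [hvw, hγ₀.1, hγ₁.1]
      have h5 := step v w hvw (by omega) (fun u hu => by
        rw [mem_mid] at hu
        exact ih (by omega) u w (by omega))
      have h6 := h1 v w (by omega)
      obtain ⟨z₀, hz₀⟩ := hi₀ v w
      obtain ⟨z₁, hz₁⟩ := hi₁ v w
      have h7 : |((z₀ - z₁ : ℤ) : ℝ)| < 1 := by
        push_cast
        rw [← hz₀, ← hz₁]
        calc |γ₀ v w - γ₁ v w| = |((x₀ v w - x₁ v w) + (γ₀ v w - γ₁ v w)) - (x₀ v w - x₁ v w)| := by
              congr 1; ring
          _ ≤ |(x₀ v w - x₁ v w) + (γ₀ v w - γ₁ v w)| + |x₀ v w - x₁ v w| := abs_sub _ _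
          _ ≤ (κ + n * c * η) + η := by linarith
          _ = κ + (1 + n * c) * η := by ring
          _ < 1 := h4
      have h8 : |z₀ - z₁| < 1 := by exact_mod_cast h7
      have h9 : z₀ = z₁ := by
        have := Int.abs_lt_one_iff.1 h8
        omega
      rw [hz₀, hz₁, h9]
  intro v w hd
  have hvw : v ≠ w := by rintro rfl; omega
  have h5 := step v w hvw (by omega) (fun u hu => by
    rw [mem_mid] at hu
    exact low (k - 1) (by omega) u w (by omega))
  obtain ⟨z₀, hz₀⟩ := hi₀ v w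
  obtain ⟨z₁, hz₁⟩ := hi₁ v w
  rw [hz₀, hz₁] at h5
  refine (nn_le _ (z₁ - z₀)).trans ?_
  push_cast
  have e : x₀ v w - x₁ v w - ((z₁ : ℝ) - z₀) = x₀ v w - x₁ v w + (z₀ - z₁) := by ring
  rw [e]
  refine h5.trans ?_
  nlinarith

end Pool.Agent.TH91.NB
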