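import Pool.Agent.TH91.NB.A2

/-!
# Polynomial sequences of unitriangular matrices and their reduction
-/

set_option autoImplicit false

namespace Pool.Agent.TH91.NB

open Finset Pool.Agent.W97.TL

variable {V : Type} [Fintype V] [DecidableEq V] {deg : V → ℕ}

/-- polynomial sequences: the entry `(v, w)` has degree at most `deg v - deg w` -/
structure PS (deg : V → ℕ) (P : ℕ → Matrix V V ℝ) : Prop where
  uni : ∀ j, Uni deg (P j)
  poly : ∀ v w, Poly (deg v - deg w) (fun j => P j v w)

theorem PS.mul {P Q : ℕ → Matrix V V ℝ} (hP : PS deg P) (hQ : PS deg Q) :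
    PS deg (fun j => P j * Q j) := by
  refine ⟨fun j => (hP.uni j).mul (hQ.uni j), fun v w => ?_⟩
  by_cases hvw : v = w
  · have e : (fun j => (P j * Q j) v w) = fun _ => 1 := by
      funext j
      rw [hvw]
      exact ((hP.uni j).mul (hQ.uni j)).1 w
    rw [e]
    exact poly_const _ _
  · have e : (fun j => (P j * Q j) v w) = (fun j => P j v w) + (fun j => Q j v w) +
        ∑ u ∈ mid deg v w, (fun j => P j v u) * (fun j => Q j u w) := by
      funext j
      rw [mul_entry (hP.uni j) (hQ.uni j) hvw]
      simp only [Pi.add_apply, Finset.sum_apply, Pi.mul_apply]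
    rw [e]
    refine ((hP.poly v w).add (hQ.poly v w)).add (Poly.sum _ _ fun u hu => ?_)
    rw [mem_mid] at hu
    exact ((hP.poly v u).mul (hQ.poly u w)).mono (by omega)

theorem PS.sc {P : ℕ → Matrix V V ℝ} (hP : PS deg P) (M : ℕ) : PS deg (fun j => P (M * j)) :=
  ⟨fun j => hP.uni _, fun v w => (hP.poly v w).sc M⟩

theorem PS.one : PS deg (fun _ => (1 : Matrix V V ℝ)) :=
  ⟨fun _ => Uni.one, fun v w => poly_const _ _⟩

/-- all binomial coefficients of the entries of level at most `k` are in `[-1/2, 1/2)` -/
def Red (deg : V → ℕ) (P : ℕ → Matrix V V ℝ) (k : ℕ) : Prop :=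
  ∀ v w, deg w < deg v → deg v ≤ deg w + k → ∀ i ≤ deg v - deg w,
    -(1 / 2) ≤ bc i (fun j => P j v w) ∧ bc i (fun j => P j v w) < 1 / 2

theorem exists_seq_red {P : ℕ → Matrix V V ℝ} (hP : PS deg P) (k : ℕ) :
    ∃ Q : ℕ → Matrix V V ℝ, PS deg Q ∧ (∀ j, IntM (Q j)) ∧ Red deg (fun j => P j * Q j) k := by
  induction k with
  | zero => exact ⟨fun _ => 1, PS.one, fun _ => IntM.one, fun v w h1 h2 => by omega⟩
  | succ k ih =>
    obtain ⟨Q, hQ, hi, h⟩ := ih
    set z : V → V → ℕ → ℤ := fun v w i => -⌊bc i (fun j => (P j * Q j) v w) + 1 / 2⌋ with hz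
    set N : ℕ → Matrix V V ℝ := fun j v w => if deg v = deg w + (k + 1) then
      ∑ i ∈ range (k + 2), (z v w i : ℝ) * (j.choose i : ℝ) else 0 with hN
    have hN0 : ∀ j v w, deg v ≠ deg w + (k + 1) → N j v w = 0 := fun j v w hvw => if_neg hvw
    have hsg : ∀ j, SG deg (N j) := fun j v w hd => hN0 j v w (by omega)
    have hNf : ∀ v w, deg v = deg w + (k + 1) → (fun j => N j v w) =
        ∑ i ∈ range (k + 2), (z v w i : ℝ) • (fun j : ℕ => (j.choose i : ℝ)) := by
      intro v w hvw
      funext j
      rw [Finset.sum_apply]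
      simp only [hN]
      rw [if_pos hvw]
      rfl
    refine ⟨fun j => Q j + N j, ⟨fun j => ?_, fun v w => ?_⟩, ?_, ?_⟩
    · constructor
      · intro v
        rw [Matrix.add_apply, (hQ.uni j).1, hsg j v v le_rfl, add_zero]
      · intro v w hvw hd
        rw [Matrix.add_apply, (hQ.uni j).2 v w hvw hd, hsg j v w hd, add_zero]
    · by_cases hvw : deg v = deg w + (k + 1)
      · have e : (fun j => (Q j + N j) v w) = (fun j => Q j v w) + (fun j => N j v w) := rfl
        rw [e, hNf v w hvw]
        refine (hQ.poly v w).add (Poly.sum _ _ fun i hi => ?_)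
        rw [mem_range] at hi
        exact ((poly_choose i).smul _).mono (by omega)
      · have e : (fun j => (Q j + N j) v w) = (fun j => Q j v w) := by
          funext j
          rw [Matrix.add_apply, hN0 j v w hvw, add_zero]
        rw [e]
        exact hQ.poly v w
    · refine fun j => (hi j).add fun v w => ?_
      by_cases hvw : deg v = deg w + (k + 1)
      · refine ⟨∑ i ∈ range (k + 2), z v w i * (j.choose i : ℤ), ?_⟩
        simp only [hN]
        rw [if_pos hvw]
        push_cast
        rfl
      · exact ⟨0, by rw [hN0 j v w hvw]; norm_num⟩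
    · intro v w hvw hd i hil
      have e0 : ∀ j, (P j * (Q j + N j)) v w = (P j * Q j) v w + N j v w := by
        intro j
        rw [mul_add, Matrix.add_apply, mul_level (hP.uni j) (hN0 j) (by omega)]
      by_cases h1 : deg v = deg w + (k + 1)
      · have e : (fun j => (P j * (Q j + N j)) v w) = (fun j => (P j * Q j) v w) +
            ∑ i ∈ range (k + 2), (z v w i : ℝ) • (fun j : ℕ => (j.choose i : ℝ)) := by
          rw [← hNf v w h1]
          funext j
          exact e0 j
        rw [e, map_add, map_sum, sum_eq_single_of_mem i (mem_range.2 (by omega))]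
        · rw [map_smul, bc_choose, if_pos rfl, smul_eq_mul, mul_one]
          simp only [hz]
          push_cast
          have f1 := Int.floor_le (bc i (fun j => (P j * Q j) v w) + 1 / 2)
          have f2 := Int.lt_floor_add_one (bc i (fun j => (P j * Q j) v w) + 1 / 2)
          constructor <;> linarith
        · intro i' _ hne
          rw [map_smul, bc_choose, if_neg (Ne.symm hne), smul_zero]
      · have e : (fun j => (P j * (Q j + N j)) v w) = (fun j => (P j * Q j) v w) := by
          funext j
          rw [e0, hN0 j v w h1, add_zero]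
        rw [e]
        exact h v w hvw (by omega) i hil

theorem int_zero_of_half {z : ℤ} (h1 : (-1 : ℝ) < z) (h2 : (z : ℝ) < 1) : z = 0 := by
  have h6 : z < 1 := by exact_mod_cast h2
  have h7 : -1 < z := by exact_mod_cast h1
  omega

theorem seq_red_unique {P Q : ℕ → Matrix V V ℝ} (hP : PS deg P) (hQ : PS deg Q)
    (hi : ∀ j, IntM (Q j)) (k : ℕ) (h : Red deg P k) (h' : Red deg (fun j => P j * Q j) k) :
    ∀ v w, v ≠ w → deg v ≤ deg w + k → ∀ j, Q j v w = 0 := by
  induction k with
  | zero => exact fun v w hvw hd j => (hQ.uni j).2 v w hvw (by omega)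
  | succ k ih =>
    have ih' := ih (fun v w h1 h2 => h v w h1 (by omega)) (fun v w h1 h2 => h' v w h1 (by omega))
    intro v w hvw hd j
    rcases le_or_gt (deg v) (deg w) with h1 | h1
    · exact (hQ.uni j).2 v w hvw h1
    have e : (fun j => (P j * Q j) v w) = (fun j => P j v w) + (fun j => Q j v w) := by
      funext j
      rw [mul_entry (hP.uni j) (hQ.uni j) hvw, sum_eq_zero, add_zero]
      · rfl
      · intro u hu
        rw [mem_mid] at hu
        rw [ih' u w (by rintro rfl; omega) (by omega), mul_zero]
    have h2 : (fun j => Q j v w) = 0 := by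
      refine (hQ.poly v w).ext (Poly.zero _) fun i hil => ?_
      rw [map_zero]
      obtain ⟨z, hz⟩ := bc_int (fun j => Q j v w) (fun j => hi j v w) i
      have h3 := h v w h1 hd i hil
      have h4 := h' v w h1 hd i hil
      rw [e, map_add, hz] at h4
      rw [hz, int_zero_of_half (z := z) (by linarith) (by linarith)]
      norm_num
    exact congrFun h2 j

end Pool.Agent.TH91.NB
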