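import Pool.Agent.TH91.NB.A3

/-!
# One stage: passing to a sub-progression
-/

set_option autoImplicit false

namespace Pool.Agent.TH91.NB

open Finset Pool.Agent.W97.TL

/-- the truncation of a sequence at degree `i` -/
noncomputable def trc (i : ℕ) (f : ℕ → ℝ) : ℕ → ℝ :=
  ∑ i' ∈ range (i + 1), bc i' f • (fun j : ℕ => (j.choose i' : ℝ))

theorem poly_trc (i : ℕ) (f : ℕ → ℝ) : Poly i (trc i f) := by
  refine Poly.sum _ _ fun i' hi' => ?_
  rw [mem_range] at hi'
  exact ((poly_choose i').smul _).mono (by omega)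

theorem bc_trc {l i : ℕ} (h : l ≤ i) (f : ℕ → ℝ) : bc l (trc i f) = bc l f := by
  unfold trc
  rw [map_sum, sum_eq_single_of_mem l (mem_range.2 (by omega))]
  · rw [map_smul, bc_choose, if_pos rfl, smul_eq_mul, mul_one]
  · intro i' _ hne
    rw [map_smul, bc_choose, if_neg (Ne.symm hne), smul_zero]

theorem choose_le (D : ℕ) {i : ℕ} (h : i ≤ D) (j : ℕ) : (j.choose i : ℝ) ≤ ((j : ℝ) + 1) ^ D := by
  have h1 : j.choose i ≤ j ^ i := Nat.choose_le_pow j i
  have h2 : j ^ i ≤ (j + 1) ^ i := Nat.pow_le_pow_left (by omega) i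
  have h3 : (j + 1) ^ i ≤ (j + 1) ^ D := Nat.pow_le_pow_right (by omega) h
  exact_mod_cast (h1.trans h2).trans h3

/-- the tail is small -/
theorem tail_le {D k i : ℕ} (hk : k ≤ D) {f : ℕ → ℝ} (hf : Poly k f) {θ : ℝ} (hθ : 0 ≤ θ)
    (h : ∀ i', i < i' → i' ≤ k → |bc i' f| ≤ θ) (j : ℕ) :
    |(f - trc i f) j| ≤ (D + 1) * (((j : ℝ) + 1) ^ D * θ) := by
  rcases lt_or_ge k i with hki | hki
  · have e : f - trc i f = 0 := by
      rw [sub_eq_zero]
      refine (hf.mono hki.le).ext (poly_trc i f) fun l hl => ?_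
      rw [bc_trc hl]
    rw [e, Pi.zero_apply, abs_zero]
    positivity
  have hpk : Poly k (f - trc i f) := hf.sub ((poly_trc i f).mono hki)
  rw [hpk.newton j]
  refine (abs_sum_le_sum_abs _ _).trans ?_
  have h1 : ∀ l ∈ range (k + 1), |(j.choose l : ℝ) * bc l (f - trc i f)| ≤
      ((j : ℝ) + 1) ^ D * θ := by
    intro l hl
    rw [mem_range] at hl
    rw [abs_mul, Nat.abs_cast]
    refine mul_le_mul (choose_le D (by omega) j) ?_ (abs_nonneg _) (by positivity)
    rw [map_sub]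
    rcases le_or_gt l i with h2 | h2
    · rw [bc_trc h2, sub_self, abs_zero]
      exact hθ
    · rw [(poly_trc i f).bc_eq_zero h2, sub_zero]
      exact h l h2 (by omega)
  refine (sum_le_sum h1).trans ?_
  rw [sum_const, card_range, nsmul_eq_mul]
  have : ((k + 1 : ℕ) : ℝ) ≤ D + 1 := by exact_mod_cast Nat.succ_le_succ hk
  exact mul_le_mul_of_nonneg_right this (by positivity)

/-- the constant of the stages -/
def C2 (D : ℕ) : ℕ := 2 ^ D * (D + 1) * (D + 1) ^ D

theorem scal {D k i : ℕ} (hk : k ≤ D) {f : ℕ → ℝ} (hf : Poly k f) {θ : ℝ} (hθ : 0 ≤ θ)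
    (h : ∀ i', i < i' → i' ≤ k → |bc i' f| ≤ θ) (M : ℕ) (hM : 1 ≤ M) (l : ℕ) (hl : l ≤ D) :
    |bc l (sc M f) - bc l (sc M (trc i f))| ≤ C2 D * (M : ℝ) ^ D * θ := by
  rw [← map_sub, ← map_sub]
  have h1 := bc_le l (sc M (f - trc i f)) ((D + 1) * (((M : ℝ) * (D + 1)) ^ D * θ)) (by
    intro j hj
    rw [sc_apply]
    refine (tail_le hk hf hθ h (M * j)).trans ?_
    have h2 : (((M * j : ℕ) : ℝ) + 1) ≤ (M : ℝ) * (D + 1) := by
      have : M * j + 1 ≤ M * (D + 1) := by nlinarith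
      exact_mod_cast this
    gcongr)
  refine h1.trans ?_
  have h3 : (2 : ℝ) ^ l ≤ 2 ^ D := pow_le_pow_right₀ (by norm_num) hl
  have h4 : (0 : ℝ) ≤ (D + 1) * (((M : ℝ) * (D + 1)) ^ D * θ) := by positivity
  calc _ ≤ 2 ^ D * ((D + 1) * (((M : ℝ) * (D + 1)) ^ D * θ)) := mul_le_mul_of_nonneg_right h3 h4
    _ = _ := by
      unfold C2
      push_cast
      rw [mul_pow]
      ring

theorem scal_gt {D k i : ℕ} (hk : k ≤ D) {f : ℕ → ℝ} (hf : Poly k f) {θ : ℝ} (hθ : 0 ≤ θ)
    (h : ∀ i', i < i' → i' ≤ k → |bc i' f| ≤ θ) (M : ℕ) (hM : 1 ≤ M) (l : ℕ) (hl : l ≤ D)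
    (hil : i < l) : |bc l (sc M f)| ≤ C2 D * (M : ℝ) ^ D * θ := by
  have h1 := scal hk hf hθ h M hM l hl
  rwa [((poly_trc i f).sc M).bc_eq_zero hil, sub_zero] at h1

theorem scal_eq {D k i : ℕ} (hk : k ≤ D) {f : ℕ → ℝ} (hf : Poly k f) {θ : ℝ} (hθ : 0 ≤ θ)
    (h : ∀ i', i < i' → i' ≤ k → |bc i' f| ≤ θ) (M : ℕ) (hM : 1 ≤ M) (hl : i ≤ D) :
    |bc i (sc M f) - (M : ℝ) ^ i * bc i f| ≤ C2 D * (M : ℝ) ^ D * θ := by
  have h1 := scal hk hf hθ h M hM i hl
  rwa [(poly_trc i f).bc_sc M, bc_trc le_rfl] at h1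

/-- the numbering of the stages -/
def rk (D k i : ℕ) : ℕ := k * (D + 1) + (D - i)

variable {V : Type} [Fintype V] [DecidableEq V] {deg : V → ℕ}

/-- all coefficients of the first `n` stages are small -/
def Small (deg : V → ℕ) (D : ℕ) (P : ℕ → Matrix V V ℝ) (n : ℕ) (θ : ℝ) : Prop :=
  ∀ v w, deg w < deg v → ∀ i, 1 ≤ i → i ≤ deg v - deg w → rk D (deg v - deg w) i < n →
    |bc i (fun j => P j v w)| ≤ θ

theorem rk_lt_of_lt {D n k i : ℕ} (h : k < n / (D + 1)) : rk D k i < n := by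
  unfold rk
  have h1 : (k + 1) * (D + 1) ≤ n / (D + 1) * (D + 1) := Nat.mul_le_mul_right _ h
  have h2 : n / (D + 1) * (D + 1) ≤ n := Nat.div_mul_le_self n (D + 1)
  have h3 : (k + 1) * (D + 1) = k * (D + 1) + (D + 1) := by ring
  omega

theorem rk_lt_of_gt {D n k i : ℕ} (h : k = n / (D + 1)) (hi : D - n % (D + 1) < i) (hiD : i ≤ D) :
    rk D k i < n := by
  unfold rk
  subst h
  have h1 := Nat.div_add_mod n (D + 1)
  rw [mul_comm] at h1
  have h2 := Nat.mod_lt n (Nat.succ_pos D)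
  simp only [Nat.succ_eq_add_one] at h2
  omega

theorem rk_eq {D n k i : ℕ} (h : k = n / (D + 1)) (hi : i = D - n % (D + 1)) : rk D k i = n := by
  unfold rk
  subst h hi
  have h1 := Nat.div_add_mod n (D + 1)
  rw [mul_comm] at h1
  have h2 := Nat.mod_lt n (Nat.succ_pos D)
  simp only [Nat.succ_eq_add_one] at h2
  omega

theorem of_rk_lt {D n k i : ℕ} (hiD : i ≤ D) (h : rk D k i < n + 1) :
    k < n / (D + 1) ∨ (k = n / (D + 1) ∧ D - n % (D + 1) ≤ i) := by
  unfold rk at h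
  have h1 := Nat.div_add_mod n (D + 1)
  rw [mul_comm] at h1
  have h2 := Nat.mod_lt n (Nat.succ_pos D)
  simp only [Nat.succ_eq_add_one] at h2
  rcases lt_trichotomy k (n / (D + 1)) with h3 | h3 | h3
  · exact Or.inl h3
  · right
    refine ⟨h3, ?_⟩
    rw [h3] at h
    omega
  · exfalso
    have h4 : (n / (D + 1) + 1) * (D + 1) ≤ k * (D + 1) := Nat.mul_le_mul_right _ h3
    have h5 : (n / (D + 1) + 1) * (D + 1) = n / (D + 1) * (D + 1) + (D + 1) := by ring
    omega

theorem nn_close {x y c : ℝ} (h : |x - y| ≤ c) : nn x ≤ nn y + c := by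
  have e : x = y + (x - y) := by ring
  rw [e]
  exact (nn_add_le _ _).trans (by linarith [nn_le_abs (x - y)])

theorem stage {D : ℕ} (hD : ∀ v w, deg v ≤ deg w + D) {P : ℕ → Matrix V V ℝ} (hP : PS deg P)
    (hred : Red deg P D) {n : ℕ} {θ δ : ℝ} (hθ : 0 ≤ θ) (hδ : 0 ≤ δ)
    (hs : Small deg D P n θ) (M : ℕ) (hM : 1 ≤ M)
    (hn : ∀ v w, deg w < deg v → ∀ i, 1 ≤ i → i ≤ deg v - deg w → rk D (deg v - deg w) i = n →
      nn (M * bc i (fun j => P j v w)) < δ)
    (hθ2 : C2 D * (M : ℝ) ^ D * θ < 1 / 2) :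
    ∃ Q : ℕ → Matrix V V ℝ, PS deg Q ∧ (∀ j, IntM (Q j)) ∧
      Red deg (fun j => P (M * j) * Q j) D ∧
      Small deg D (fun j => P (M * j) * Q j) (n + 1) (C2 D * (M : ℝ) ^ D * θ + (M : ℝ) ^ D * δ) := by
  have hP1 := hP.sc M
  obtain ⟨Q, hQ, hi, hR⟩ := exists_seq_red hP1 D
  refine ⟨Q, hQ, hi, hR, ?_⟩
  set k0 := n / (D + 1) with hk0
  set i0 := D - n % (D + 1) with hi0
  have hMD : (0 : ℝ) ≤ (M : ℝ) ^ D * δ := by positivity
  have hC : (0 : ℝ) ≤ C2 D * (M : ℝ) ^ D * θ := by positivity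
  have hM1 : (1 : ℝ) ≤ M := by exact_mod_cast hM
  -- the low levels
  have low : ∀ v w, deg w < deg v → deg v - deg w < k0 → ∀ i, 1 ≤ i → i ≤ deg v - deg w →
      |bc i (fun j => P (M * j) v w)| ≤ C2 D * (M : ℝ) ^ D * θ := by
    intro v w hvw hk i hi1 hi2
    have h1 := hD v w
    exact scal_gt (i := 0) (k := deg v - deg w) (by omega) (hP.poly v w) hθ
      (fun i' h1 h2 => hs v w hvw i' h1 h2 (rk_lt_of_lt hk)) M hM i (by omega) (by omega)
  have hQ0 : ∀ v w, v ≠ w → deg v < deg w + k0 → ∀ j, Q j v w = 0 := by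
    intro v w hvw hk j
    rcases Nat.eq_zero_or_pos k0 with h0 | h0
    · exact (hQ.uni j).2 v w hvw (by omega)
    refine seq_red_unique hP1 hQ hi (k0 - 1) ?_ ?_ v w hvw (by omega) j
    · intro v w hvw hk i hil
      rcases Nat.eq_zero_or_pos i with rfl | hi1
      · have e : (fun j => P (M * j) v w) = sc M (fun j => P j v w) := rfl
        rw [e, bc_zero_sc]
        exact hred v w hvw (hD v w) 0 hil
      · have h1 := low v w hvw (by omega) i hi1 hil
        rw [abs_le] at h1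
        constructor <;> linarith
    · exact fun v w h1 h2 => hR v w h1 (hD v w)
  have hent : ∀ v w, deg w < deg v → deg v - deg w ≤ k0 →
      (fun j => (P (M * j) * Q j) v w) = (fun j => P (M * j) v w) + (fun j => Q j v w) := by
    intro v w hvw hk
    funext j
    rw [mul_entry (hP1.uni j) (hQ.uni j) (by rintro rfl; omega), sum_eq_zero, add_zero]
    · rfl
    · intro u hu
      rw [mem_mid] at hu
      rw [hQ0 u w (by rintro rfl; omega) (by omega), mul_zero]
  intro v w hvw i hi1 hi2 hrk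
  have hDvw := hD v w
  rcases of_rk_lt (by omega) hrk with h1 | ⟨h1, h2⟩
  · have e : (fun j => (P (M * j) * Q j) v w) = fun j => P (M * j) v w := by
      rw [hent v w hvw (by omega)]
      funext j
      rw [Pi.add_apply, hQ0 v w (by rintro rfl; omega) (by omega), add_zero]
    rw [e]
    have := low v w hvw h1 i hi1 hi2
    linarith
  · obtain ⟨z, hz⟩ := bc_int (fun j => Q j v w) (fun j => hi j v w) i
    have h3 := hR v w hvw hDvw i hi2
    rw [hent v w hvw (by omega), map_add, hz] at h3 ⊢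
    have hsm : ∀ i', i0 < i' → i' ≤ deg v - deg w → |bc i' (fun j => P j v w)| ≤ θ := by
      intro i' h4 h5
      exact hs v w hvw i' (by omega) h5 (rk_lt_of_gt h1 h4 (by omega))
    rcases Nat.lt_or_ge i0 i with h4 | h4
    · have h5 : |bc i (fun j => P (M * j) v w)| ≤ C2 D * (M : ℝ) ^ D * θ :=
        scal_gt (by omega) (hP.poly v w) hθ hsm M hM i (by omega) h4
      rw [abs_le] at h5
      have h6 := int_zero_of_half (z := z) (by linarith) (by linarith)
      rw [h6]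
      simp only [Int.cast_zero, add_zero]
      rw [abs_le]
      constructor <;> linarith
    · have h5 : i = i0 := by omega
      have h6 : |bc i (fun j => P (M * j) v w) - (M : ℝ) ^ i * bc i (fun j => P j v w)| ≤
          C2 D * (M : ℝ) ^ D * θ :=
        scal_eq (by omega) (hP.poly v w) hθ (by rw [h5]; exact hsm) M hM (by omega)
      have h7 := hn v w hvw i hi1 hi2 (rk_eq h1 (by omega))
      have h8 : nn ((M : ℝ) ^ i * bc i (fun j => P j v w)) ≤ (M : ℝ) ^ D * δ := by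
        obtain ⟨i, rfl⟩ : ∃ i', i = i' + 1 := ⟨i - 1, by omega⟩
        have e : (M : ℝ) ^ (i + 1) * bc (i + 1) (fun j => P j v w) =
            ((M ^ i : ℕ) : ℝ) * (M * bc (i + 1) (fun j => P j v w)) := by
          push_cast
          ring
        rw [e]
        refine (nn_nat_mul _ _).trans ?_
        push_cast
        refine mul_le_mul ?_ h7.le (nn_nonneg _) (by positivity)
        exact pow_le_pow_right₀ hM1 (by omega)
      have h9 : |bc i (fun j => P (M * j) v w) + z| =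
          nn (bc i (fun j => P (M * j) v w) + z) := by
        rw [nn_eq_abs]
        rw [abs_le]
        constructor <;> linarith
      rw [h9, nn_add_int]
      refine (nn_close h6).trans ?_
      linarith

end Pool.Agent.TH91.NB
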