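import Pool.Agent.TH91.NB.A4

/-!
# One stage: a large coefficient gives many separated points
-/

set_option autoImplicit false

namespace Pool.Agent.TH91.NB

open Finset Pool.Agent.W97.TL

/-- the time horizon -/
noncomputable def hor (D m : ℕ) (δ : ℝ) : ℕ := m * (⌈(m.factorial : ℝ) / δ⌉₊ + 1) + D

theorem le_hor (D m : ℕ) (δ : ℝ) : m + D ≤ hor D m δ := by
  unfold hor
  have : m * 1 ≤ m * (⌈(m.factorial : ℝ) / δ⌉₊ + 1) := Nat.mul_le_mul_left _ (by omega)
  omega

theorem Rich.perturb {f g : ℕ → ℝ} {R J : ℕ} {ρ : ℝ} (h : Rich g R J (2 * ρ))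
    (hfg : ∀ j ≤ J, |f j - g j| ≤ ρ / 2) : Rich f R J ρ := by
  obtain ⟨t, h1, h2⟩ := h
  refine ⟨t, h1, fun a b hab => ?_⟩
  have h3 := h2 a b hab
  have h4 := hfg _ (h1 a)
  have h5 := hfg _ (h1 b)
  have h6 : nn (g (t a) - g (t b)) ≤ nn (f (t a) - f (t b)) + ρ := by
    refine nn_close ?_
    have e : g (t a) - g (t b) - (f (t a) - f (t b)) = -(f (t a) - g (t a)) + (f (t b) - g (t b)) := by
      ring
    rw [e]
    refine (abs_add_le _ _).trans ?_
    rw [abs_neg]
    linarith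
  linarith

/-- the separation of the points -/
noncomputable def sep (D K : ℕ) : ℝ := 1 / (16 * 4 ^ D * K)

theorem sep_pos (D : ℕ) {K : ℕ} (hK : 0 < K) : 0 < sep D K := by
  unfold sep
  have : (0 : ℝ) < K := by exact_mod_cast hK
  positivity

theorem rich_stage {D k i : ℕ} (hk : k ≤ D) (hi1 : 1 ≤ i) (hik : i ≤ k) {f : ℕ → ℝ}
    (hf : Poly k f) {θ : ℝ} (hθ : 0 ≤ θ) (h : ∀ i', i < i' → i' ≤ k → |bc i' f| ≤ θ)
    {m K R RB : ℕ} (hR : 0 < R) (hRB : 0 < RB) (hK : 0 < K) {δ : ℝ} (hδ : 0 < δ)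
    (hb : δ ≤ nn (m.factorial * bc i f)) (h1 : R ^ (2 ^ D) ≤ m + 1) (h2 : RB ^ (2 ^ D) ≤ K)
    (hτ : (D + 1) * (((hor D m δ : ℝ) + 1) ^ D * θ) ≤ sep D K / 2) :
    Rich f R (m + D) (sep D K) ∨ Rich f RB (hor D m δ) (sep D K) := by
  have hKr : (0 : ℝ) < K := by exact_mod_cast hK
  have hsep := sep_pos D hK
  set g := trc i f with hg
  set e := i - 1 with he
  have hgp : Poly i g := poly_trc i f
  have hq : Poly 1 ((Dl ^ e) g) := by
    unfold Poly
    rw [← Module.End.mul_apply, ← pow_add]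
    exact hgp.pow_eq_zero (by omega)
  have hlin : dif^[e] g = fun j : ℕ => bc 0 ((Dl ^ e) g) + j * bc i f := by
    funext j
    rw [dif_iter_eq, hq.newton j, sum_range_succ, sum_range_one, Nat.choose_zero_right,
      Nat.choose_one_right, Nat.cast_one, one_mul]
    congr 2
    have : bc 1 ((Dl ^ e) g) = bc i g := by
      unfold bc
      rw [LinearMap.comp_apply, LinearMap.comp_apply, ← Module.End.mul_apply, ← pow_add,
        show 1 + e = i by omega]
    rw [this, hg, bc_trc le_rfl]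
  have hclose : ∀ J, J ≤ hor D m δ → ∀ j ≤ J, |f j - g j| ≤ sep D K / 2 := by
    intro J hJ j hj
    have h3 := tail_le hk hf hθ h j
    rw [Pi.sub_apply] at h3
    refine h3.trans (le_trans ?_ hτ)
    have : (j : ℝ) ≤ hor D m δ := by exact_mod_cast hj.trans hJ
    gcongr
  have h4 : (4 : ℝ) ^ e ≤ 4 ^ D := pow_le_pow_right₀ (by norm_num) (by omega)
  have h22 : 2 ^ e ≤ 2 ^ D := Nat.pow_le_pow_right (by norm_num) (by omega)
  have hρ : (4 : ℝ) ^ e * (2 * sep D K) ≤ 1 / (8 * K) := by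
    calc (4 : ℝ) ^ e * (2 * sep D K) ≤ 4 ^ D * (2 * sep D K) := by
          apply mul_le_mul_of_nonneg_right h4
          linarith
      _ = 1 / (8 * K) := by
        unfold sep
        field_simp
        norm_num
  rcases rich_linear m K (bc 0 ((Dl ^ e) g)) (bc i f) δ hδ hb hK with h5 | h5
  · left
    rw [← hlin] at h5
    have h6 : Rich (dif^[e] g) (R ^ (2 ^ e)) m (4 ^ e * (2 * sep D K)) := by
      apply h5.mono _ le_rfl hρ
      exact (Nat.pow_le_pow_right hR h22).trans h1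
    have h7 := (rich_of_dif_iter e (by linarith) h6).mono le_rfl (show m + e ≤ m + D by omega) le_rfl
    exact Rich.perturb h7 (hclose _ (le_hor D m δ))
  · right
    rw [← hlin] at h5
    have h6 : Rich (dif^[e] g) (RB ^ (2 ^ e)) (m * (⌈(m.factorial : ℝ) / δ⌉₊ + 1))
        (4 ^ e * (2 * sep D K)) := by
      apply h5.mono _ le_rfl hρ
      exact (Nat.pow_le_pow_right hRB h22).trans h2
    have h7 := (rich_of_dif_iter e (by linarith) h6).mono le_rfl
      (show m * (⌈(m.factorial : ℝ) / δ⌉₊ + 1) + e ≤ hor D m δ by unfold hor; omega) le_rfl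
    exact Rich.perturb h7 (hclose _ le_rfl)

end Pool.Agent.TH91.NB
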