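import Pool.Agent.TH91.NB.A5

/-!
# Cells and blocks
-/

set_option autoImplicit false

namespace Pool.Agent.TH91.NB

open Finset Pool.Agent.W97.TL

variable {V : Type} [Fintype V] [DecidableEq V] {deg : V → ℕ}

/-- the bound for the corrections -/
def CB (V : Type) [Fintype V] (D : ℕ) : ℕ := ((Fintype.card V + 2) * 2) ^ D

/-- real matrices of integer matrices -/
def toR (z : V → V → ℤ) : Matrix V V ℝ := fun v w => (z v w : ℝ)

open Classical in
/-- the possible corrections -/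
noncomputable def corr (deg : V → ℕ) (D : ℕ) : Finset (V → V → ℤ) :=
  (Fintype.piFinset (fun _ : V => Fintype.piFinset (fun _ : V =>
    Finset.Icc (-(CB V D : ℤ)) (CB V D)))).filter (fun z => Uni deg (toR z))

theorem mem_corr {D : ℕ} {z : V → V → ℤ} : z ∈ corr deg D ↔
    (∀ v w, |z v w| ≤ CB V D) ∧ Uni deg (toR z) := by
  classical
  simp only [corr, mem_filter, Fintype.mem_piFinset, mem_Icc, abs_le]

/-- the possible rounding errors -/
noncomputable def rnd (V : Type) [Fintype V] [DecidableEq V] : Finset (V → V → ℤ) :=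
  Fintype.piFinset (fun _ : V => Fintype.piFinset (fun _ : V => Finset.Icc (-1) 1))

theorem mem_rnd {z : V → V → ℤ} : z ∈ rnd V ↔ ∀ v w, |z v w| ≤ 1 := by
  unfold rnd
  simp only [Fintype.mem_piFinset, mem_Icc, abs_le]

/-- the cell of a point -/
noncomputable def cell (deg : V → ℕ) (G : ℕ) (x : Matrix V V ℝ) : V → V → ℤ :=
  fun v w => ⌊(G : ℝ) * red deg x v w⌋

/-- the block of cells around a point -/
noncomputable def blk (deg : V → ℕ) (D G : ℕ) (x : Matrix V V ℝ) : Finset (V → V → ℤ) :=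
  (corr deg D ×ˢ rnd V).image
    (fun p => fun v w => ⌊(G : ℝ) * (red deg x * toR p.1) v w⌋ + p.2 v w)

/-- the size of the blocks -/
noncomputable def bsz (deg : V → ℕ) (D : ℕ) : ℕ := (corr deg D ×ˢ rnd V).card

theorem card_blk (D G : ℕ) (x : Matrix V V ℝ) : (blk deg D G x).card ≤ bsz deg D := card_image_le

theorem FR.abs_le {x : Matrix V V ℝ} (h : FR deg x) (hx : Uni deg x) (v w : V) : |x v w| ≤ 1 := by
  by_cases hvw : v = w
  · rw [hvw, hx.1, abs_one]
  rcases le_or_gt (deg v) (deg w) with h1 | h1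
  · rw [hx.2 v w hvw h1, abs_zero]
    exact zero_le_one
  · have := h v w h1
    rw [_root_.abs_le]
    constructor <;> linarith

theorem floor_close {a b : ℝ} (h : |a - b| ≤ 1) : |⌊a⌋ - ⌊b⌋| ≤ 1 := by
  rw [abs_le] at h ⊢
  have h1 : ⌊a⌋ ≤ ⌊b⌋ + 1 := by
    rw [← Int.floor_add_one]
    exact Int.floor_le_floor (by linarith)
  have h2 : ⌊b⌋ ≤ ⌊a⌋ + 1 := by
    rw [← Int.floor_add_one]
    exact Int.floor_le_floor (by linarith)
  constructor <;> omega

theorem mem_blk {D : ℕ} (hD : ∀ v w, deg v ≤ deg w + D) {G : ℕ} {x x₀ : Matrix V V ℝ}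
    (hx : Uni deg x) (hx₀ : Uni deg x₀) {B e : ℝ} (hB : 1 ≤ B) (he : 0 ≤ e)
    (h1 : ∀ v w, |x₀ v w| ≤ B) (h2 : ∀ v w, |x v w - x₀ v w| ≤ e)
    (h3 : Fintype.card V * (e * (((Fintype.card V : ℝ) + 2) * B) ^ D) ≤ 1)
    (h4 : (G : ℝ) * (Fintype.card V * ((Fintype.card V *
      (e * (((Fintype.card V : ℝ) + 2) * B) ^ D)) * CB V D)) ≤ 1) :
    cell deg G x ∈ blk deg D G x₀ := by
  set n : ℝ := (Fintype.card V : ℝ) with hn
  have hn0 : 0 ≤ n := Nat.cast_nonneg _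
  obtain ⟨γ, hγ, hγi, hr, hfr⟩ := red_spec hx
  obtain ⟨γ₀, hγ₀, hγ₀i, hr₀, hfr₀⟩ := red_spec hx₀
  obtain ⟨γ', hγ', hγ'i, hgg, hgg'⟩ := exists_inv hγ₀
  have hur : Uni deg (red deg x) := by rw [hr]; exact hx.mul hγ
  have hur₀ : Uni deg (red deg x₀) := by rw [hr₀]; exact hx₀.mul hγ₀
  have hnB : 1 ≤ (n + 2) * B := by nlinarith
  -- bound of `γ₀`
  have hb0 : ∀ v w, |γ₀ v w| ≤ ((n + 2) * B) ^ D := by
    intro v w
    refine (bd hx₀ hγ₀ B hB D (fun v w _ => h1 v w) (fun v w _ => ?_) v w (hD v w)).trans ?_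
    · rw [← hr₀]
      exact (hfr₀.abs_le hur₀ v w).trans hB
    · exact pow_le_pow_right₀ hnB (by have := hD v w; omega)
  set y := x * γ₀ with hy
  have hyu : Uni deg y := hx.mul hγ₀
  set e₁ := n * (e * ((n + 2) * B) ^ D) with he₁
  have he₁0 : 0 ≤ e₁ := by positivity
  have hyr : ∀ v w, |y v w - red deg x₀ v w| ≤ e₁ := by
    intro v w
    have e2 : y v w - red deg x₀ v w = ((x - x₀) * γ₀) v w := by
      rw [hy, hr₀, sub_mul, Matrix.sub_apply]
    rw [e2]
    exact entry_mul_le e (((n + 2) * B) ^ D) (by positivity) (fun u => h2 v u) (fun u => hb0 u w)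
  set δ := γ' * γ with hδ
  have hδu : Uni deg δ := hγ'.mul hγ
  have hδi : IntM δ := (hγ'i hγ₀i).mul hγi
  have hyδ : y * δ = red deg x := by
    rw [hy, hδ, hr]
    calc x * γ₀ * (γ' * γ) = x * (γ₀ * γ') * γ := by simp only [mul_assoc]
      _ = x * γ := by rw [hgg, mul_one]
  have hyb : ∀ v w, |y v w| ≤ 2 := by
    intro v w
    have e3 : y v w = (y v w - red deg x₀ v w) + red deg x₀ v w := by ring
    rw [e3]
    refine (abs_add_le _ _).trans ?_
    have := hyr v w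
    have := hfr₀.abs_le hur₀ v w
    linarith
  have hδb : ∀ v w, |δ v w| ≤ CB V D := by
    intro v w
    refine (bd hyu hδu 2 (by norm_num) D (fun v w _ => hyb v w) (fun v w _ => ?_) v w
      (hD v w)).trans ?_
    · rw [hyδ]
      exact (hfr.abs_le hur v w).trans (by norm_num)
    · unfold CB
      push_cast
      exact pow_le_pow_right₀ (by nlinarith) (by have := hD v w; omega)
  choose z hz using hδi
  have hzδ : toR z = δ := by
    ext v w
    exact (hz v w).symm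
  have hclose : ∀ v w, |(G : ℝ) * red deg x v w - (G : ℝ) * (red deg x₀ * toR z) v w| ≤ 1 := by
    intro v w
    have e2 : (G : ℝ) * red deg x v w - (G : ℝ) * (red deg x₀ * toR z) v w =
        G * ((y - red deg x₀) * δ) v w := by
      rw [← hyδ, hzδ, sub_mul, Matrix.sub_apply]
      ring
    rw [e2, abs_mul, Nat.abs_cast]
    refine (mul_le_mul_of_nonneg_left ?_ (Nat.cast_nonneg G)).trans h4
    exact entry_mul_le e₁ (CB V D) (Nat.cast_nonneg _) (fun u => hyr v u) (fun u => hδb u w)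
  unfold blk
  rw [mem_image]
  refine ⟨(z, fun v w => ⌊(G : ℝ) * red deg x v w⌋ - ⌊(G : ℝ) * (red deg x₀ * toR z) v w⌋),
    ?_, ?_⟩
  · rw [mem_product, mem_corr, mem_rnd]
    refine ⟨⟨fun v w => ?_, ?_⟩, fun v w => floor_close (hclose v w)⟩
    · have := hδb v w
      rw [hz v w] at this
      exact_mod_cast this
    · rw [hzδ]
      exact hδu
  · funext v w
    simp only [cell]
    ring

theorem blk_disjoint {D : ℕ} {G : ℕ} (hG : 0 < G) {x₀ x₁ : Matrix V V ℝ}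
    (hx₀ : Uni deg x₀) (hx₁ : Uni deg x₁) {k : ℕ} (hk : 1 ≤ k) (hkD : k ≤ D) {η ρ : ℝ}
    (hη : 0 ≤ η)
    (h1 : ∀ v w, deg v < deg w + k → |x₀ v w - x₁ v w| ≤ η)
    (h2 : ∀ v w, deg v < deg w + k → |x₀ v w| ≤ 2)
    (h3 : 3 / (G : ℝ) + (1 + Fintype.card V * (Fintype.card V * ((CB V D : ℝ) * CB V D))) * η < ρ)
    (h4 : ∃ v w, deg v = deg w + k ∧ ρ ≤ nn (x₀ v w - x₁ v w)) :
    Disjoint (blk deg D G x₀) (blk deg D G x₁) := by
  set n : ℝ := (Fintype.card V : ℝ) with hn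
  have hn0 : 0 ≤ n := Nat.cast_nonneg _
  have hGr : (0 : ℝ) < G := by exact_mod_cast hG
  obtain ⟨v₀, w₀, hvw, hρ⟩ := h4
  have hhalf : nn (x₀ v₀ w₀ - x₁ v₀ w₀) ≤ 1 / 2 := abs_sub_round _
  rw [disjoint_left]
  intro z hz₀ hz₁
  unfold blk at hz₀ hz₁
  rw [mem_image] at hz₀ hz₁
  obtain ⟨⟨p₀, q₀⟩, hp₀, he₀⟩ := hz₀
  obtain ⟨⟨p₁, q₁⟩, hp₁, he₁⟩ := hz₁
  rw [mem_product, mem_corr, mem_rnd] at hp₀ hp₁
  simp only at he₀ he₁ hp₀ hp₁
  obtain ⟨a₀, ha₀, ha₀i, hr₀, hfr₀⟩ := red_spec hx₀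
  obtain ⟨a₁, ha₁, ha₁i, hr₁, hfr₁⟩ := red_spec hx₁
  have hur₀ : Uni deg (red deg x₀) := by rw [hr₀]; exact hx₀.mul ha₀
  have hab : ∀ v w, deg v < deg w + k → |a₀ v w| ≤ CB V D := by
    intro v w hd
    refine (bd hx₀ ha₀ 2 (by norm_num) (k - 1) (fun v w h => h2 v w (by omega))
      (fun v w _ => ?_) v w (by omega)).trans ?_
    · rw [← hr₀]
      exact (hfr₀.abs_le hur₀ v w).trans (by norm_num)
    · unfold CB
      push_cast
      exact pow_le_pow_right₀ (by nlinarith) (by omega)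
  have hpb : ∀ v w, |toR p₀ v w| ≤ (CB V D : ℝ) := by
    intro v w
    have := hp₀.1.1 v w
    unfold toR
    exact_mod_cast this
  have hsep := separation hx₀ hx₁ (ha₀.mul hp₀.1.2) (ha₁.mul hp₁.1.2)
    (ha₀i.mul (fun v w => ⟨p₀ v w, rfl⟩)) (ha₁i.mul (fun v w => ⟨p₁ v w, rfl⟩)) k hk η
    (3 / (G : ℝ)) (n * ((CB V D : ℝ) * CB V D)) hη (by positivity) h1 (by
      intro v w hd
      rw [Matrix.mul_apply]
      refine (abs_sum_le_sum_abs _ _).trans ?_
      have h5 : ∀ u ∈ (univ : Finset V), |a₀ v u * toR p₀ u w| ≤ (CB V D : ℝ) * CB V D := by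
        intro u _
        rw [abs_mul]
        by_cases huw : u = w
        · rw [huw]
          exact mul_le_mul (hab v w hd) (hpb w w) (abs_nonneg _) (Nat.cast_nonneg _)
        rcases le_or_gt (deg u) (deg w) with h6 | h6
        · rw [hp₀.1.2.2 u w huw h6, abs_zero, mul_zero]
          positivity
        · exact mul_le_mul (hab v u (by omega)) (hpb u w) (abs_nonneg _) (Nat.cast_nonneg _)
      refine (sum_le_sum h5).trans ?_
      rw [sum_const, nsmul_eq_mul, card_univ]) (by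
      intro v w _
      have e0 : x₀ * (a₀ * toR p₀) = red deg x₀ * toR p₀ := by rw [hr₀, mul_assoc]
      have e1 : x₁ * (a₁ * toR p₁) = red deg x₁ * toR p₁ := by rw [hr₁, mul_assoc]
      rw [e0, e1]
      have f0 := congrFun (congrFun he₀ v) w
      have f1 := congrFun (congrFun he₁ v) w
      have g0 := hp₀.2 v w
      have g1 := hp₁.2 v w
      rw [abs_le] at g0 g1
      set a := (red deg x₀ * toR p₀) v w with ha
      set b := (red deg x₁ * toR p₁) v w with hb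
      have k0 : ⌊(G : ℝ) * a⌋ - ⌊(G : ℝ) * b⌋ ≤ 2 := by omega
      have k1 : -2 ≤ ⌊(G : ℝ) * a⌋ - ⌊(G : ℝ) * b⌋ := by omega
      have k0' : (⌊(G : ℝ) * a⌋ : ℝ) - ⌊(G : ℝ) * b⌋ ≤ 2 := by exact_mod_cast k0
      have k1' : (-2 : ℝ) ≤ (⌊(G : ℝ) * a⌋ : ℝ) - ⌊(G : ℝ) * b⌋ := by exact_mod_cast k1
      have l1 := Int.floor_le ((G : ℝ) * a)
      have l2 := Int.lt_floor_add_one ((G : ℝ) * a)
      have l3 := Int.floor_le ((G : ℝ) * b)
      have l4 := Int.lt_floor_add_one ((G : ℝ) * b)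
      rw [le_div_iff₀ hGr]
      have e2 : |a - b| * G = |(G : ℝ) * a - G * b| := by
        rw [← mul_sub, abs_mul, abs_of_pos hGr, mul_comm]
      rw [e2, abs_le]
      constructor <;> linarith) (by linarith) v₀ w₀ hvw
  linarith

end Pool.Agent.TH91.NB
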