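import Pool.Agent.TH91.NB.A6
import Pool.Agent.W97.TL.Hit

/-!
# The colouring
-/

set_option autoImplicit false

namespace Pool.Agent.TH91.NB

open Finset Pool.Agent.W97.TL

/-- the hitting lemma for infinite sets of cells -/
theorem exists_colouring' {Ω E : Type} [DecidableEq Ω] [Fintype E] [DecidableEq E] (b : ℕ)
    (n : E → ℕ) (B : E → ℕ → Finset Ω)
    (hb : ∀ e, ∀ i < n e, (B e i).card ≤ b)
    (hd : ∀ e, ∀ i < n e, ∀ j < n e, i ≠ j → Disjoint (B e i) (B e j))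
    (hsum : ∑ e : E, 2 * (1 - 1 / 2 ^ b : ℝ) ^ (n e) < 1) :
    ∃ F : Ω → Bool, ∀ e, ∀ v : Bool, ∃ i < n e, ∀ z ∈ B e i, F z = v := by
  set T : Finset Ω := univ.biUnion (fun e => (range (n e)).biUnion (B e)) with hT
  have hBT : ∀ e, ∀ i < n e, ∀ z ∈ B e i, z ∈ T := by
    intro e i hi z hz
    rw [hT, mem_biUnion]
    refine ⟨e, mem_univ e, ?_⟩
    rw [mem_biUnion]
    exact ⟨i, mem_range.2 hi, hz⟩
  obtain ⟨F, hF⟩ := exists_colouring (Ω := {x // x ∈ T}) b n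
    (fun e i => (B e i).subtype (fun z => z ∈ T))
    (by
      intro e i hi
      rw [card_subtype]
      exact (card_filter_le _ _).trans (hb e i hi))
    (by
      intro e i hi j hj hij
      rw [disjoint_left]
      intro z hz hz'
      rw [mem_subtype] at hz hz'
      exact (disjoint_left.1 (hd e i hi j hj hij)) hz hz') hsum
  refine ⟨fun z => if h : z ∈ T then F ⟨z, h⟩ else false, fun e v => ?_⟩
  obtain ⟨i, hi, h⟩ := hF e v
  refine ⟨i, hi, fun z hz => ?_⟩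
  have hzT := hBT e i hi z hz
  simp only
  rw [dif_pos hzT]
  exact h ⟨z, hzT⟩ (mem_subtype.2 hz)

/-! ### the grid -/

/-- the position in the grid -/
noncomputable def grid (Q : ℕ) (b : ℝ) : ℕ := ⌊(Q : ℝ) * (b + 1 / 2)⌋₊ % Q

theorem grid_close {Q : ℕ} (hQ : 0 < Q) {b b' : ℝ} (h1 : -(1 / 2) ≤ b) (h2 : b < 1 / 2)
    (h1' : -(1 / 2) ≤ b') (h2' : b' < 1 / 2) (h : grid Q b = grid Q b') : |b - b'| ≤ 1 / Q := by
  have hQr : (0 : ℝ) < Q := by exact_mod_cast hQ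
  have key : ∀ c : ℝ, -(1 / 2) ≤ c → c < 1 / 2 → grid Q c = ⌊(Q : ℝ) * (c + 1 / 2)⌋₊ := by
    intro c hc1 hc2
    unfold grid
    apply Nat.mod_eq_of_lt
    rw [Nat.floor_lt (by nlinarith)]
    nlinarith
  rw [key b h1 h2, key b' h1' h2'] at h
  have f1 := Nat.floor_le (show 0 ≤ (Q : ℝ) * (b + 1 / 2) by nlinarith)
  have f2 := Nat.lt_floor_add_one ((Q : ℝ) * (b + 1 / 2))
  have f3 := Nat.floor_le (show 0 ≤ (Q : ℝ) * (b' + 1 / 2) by nlinarith)
  have f4 := Nat.lt_floor_add_one ((Q : ℝ) * (b' + 1 / 2))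
  rw [h] at f1 f2
  rw [le_div_iff₀ hQr]
  have e : |b - b'| * Q = |(Q : ℝ) * (b + 1 / 2) - (Q : ℝ) * (b' + 1 / 2)| := by
    rw [← mul_sub, abs_mul, abs_of_pos hQr, mul_comm]
    congr 2
    ring
  rw [e, abs_le]
  constructor <;> linarith

variable {V : Type} [Fintype V] [DecidableEq V] {deg : V → ℕ}

/-- the type of a sequence -/
noncomputable def tp (D Q : ℕ) (hQ : 0 < Q) (P : ℕ → Matrix V V ℝ) :
    V → V → Fin (D + 1) → Fin Q :=
  fun v w i => ⟨grid Q (bc i (fun j => P j v w)), Nat.mod_lt _ hQ⟩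

theorem seq_bound {D : ℕ} (hD : ∀ v w, deg v ≤ deg w + D) {P : ℕ → Matrix V V ℝ} (hP : PS deg P)
    (hred : Red deg P D) {j J : ℕ} (hj : j ≤ J) (v w : V) :
    |P j v w| ≤ (D + 1) * ((J : ℝ) + 1) ^ D := by
  have h1 : (1 : ℝ) ≤ ((J : ℝ) + 1) ^ D := by
    apply one_le_pow₀
    have : (0 : ℝ) ≤ J := Nat.cast_nonneg _
    linarith
  have hD0 : (0 : ℝ) ≤ D := Nat.cast_nonneg _
  by_cases hvw : v = w
  · rw [hvw, (hP.uni j).1, abs_one]
    nlinarith
  rcases le_or_gt (deg v) (deg w) with h2 | h2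
  · rw [(hP.uni j).2 v w hvw h2, abs_zero]
    positivity
  have h3 := (hP.poly v w).newton j
  rw [h3]
  refine (abs_sum_le_sum_abs _ _).trans ?_
  have hDvw := hD v w
  have h4 : ∀ i ∈ range (deg v - deg w + 1), |(j.choose i : ℝ) * bc i (fun j => P j v w)| ≤
      ((J : ℝ) + 1) ^ D := by
    intro i hi
    rw [mem_range] at hi
    have h5 := hred v w h2 hDvw i (by omega)
    have h6 : |bc i (fun j => P j v w)| ≤ 1 := by
      rw [abs_le]
      constructor <;> linarith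
    rw [abs_mul, Nat.abs_cast]
    calc (j.choose i : ℝ) * |bc i (fun j => P j v w)| ≤ ((j : ℝ) + 1) ^ D * 1 :=
          mul_le_mul (choose_le D (by omega) j) h6 (abs_nonneg _) (by positivity)
      _ = ((j : ℝ) + 1) ^ D := mul_one _
      _ ≤ ((J : ℝ) + 1) ^ D := by
        have : (j : ℝ) ≤ J := by exact_mod_cast hj
        gcongr
  refine (sum_le_sum h4).trans ?_
  rw [sum_const, card_range, nsmul_eq_mul]
  apply mul_le_mul_of_nonneg_right _ (by positivity)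
  have : deg v - deg w + 1 ≤ D + 1 := by omega
  exact_mod_cast this

theorem seq_close {D : ℕ} (hD : ∀ v w, deg v ≤ deg w + D) {P P' : ℕ → Matrix V V ℝ}
    (hP : PS deg P) (hred : Red deg P D) (hP' : PS deg P') (hred' : Red deg P' D) {Q : ℕ}
    (hQ : 0 < Q) (h : tp D Q hQ P = tp D Q hQ P') {j J : ℕ} (hj : j ≤ J) (v w : V) :
    |P j v w - P' j v w| ≤ (D + 1) * (((J : ℝ) + 1) ^ D * (1 / Q)) := by
  have hQr : (0 : ℝ) < Q := by exact_mod_cast hQ
  by_cases hvw : v = w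
  · rw [hvw, (hP.uni j).1, (hP'.uni j).1, sub_self, abs_zero]
    positivity
  rcases le_or_gt (deg v) (deg w) with h2 | h2
  · rw [(hP.uni j).2 v w hvw h2, (hP'.uni j).2 v w hvw h2, sub_self, abs_zero]
    positivity
  have h3 := ((hP.poly v w).sub (hP'.poly v w)).newton j
  have e : P j v w - P' j v w = ((fun j => P j v w) - (fun j => P' j v w)) j := rfl
  rw [e, h3]
  refine (abs_sum_le_sum_abs _ _).trans ?_
  have hDvw := hD v w
  have h4 : ∀ i ∈ range (deg v - deg w + 1),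
      |(j.choose i : ℝ) * bc i ((fun j => P j v w) - (fun j => P' j v w))| ≤
      ((J : ℝ) + 1) ^ D * (1 / Q) := by
    intro i hi
    rw [mem_range] at hi
    have h5 := hred v w h2 hDvw i (by omega)
    have h5' := hred' v w h2 hDvw i (by omega)
    have h6 := congrArg Fin.val (congrFun (congrFun (congrFun h v) w) ⟨i, by omega⟩)
    have h7 := grid_close hQ h5.1 h5.2 h5'.1 h5'.2 h6
    rw [abs_mul, Nat.abs_cast, map_sub]
    refine mul_le_mul ((choose_le D (by omega) j).trans ?_) h7 (abs_nonneg _) (by positivity)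
    have : (j : ℝ) ≤ J := by exact_mod_cast hj
    gcongr
  refine (sum_le_sum h4).trans ?_
  rw [sum_const, card_range, nsmul_eq_mul]
  apply mul_le_mul_of_nonneg_right _ (by positivity)
  have : deg v - deg w + 1 ≤ D + 1 := by omega
  exact_mod_cast this

/-- a sequence with nearly constant entries of level lower than that of an entry which visits
many separated points -/
def Spread (deg : V → ℕ) (P : ℕ → Matrix V V ℝ) (R J : ℕ) (η ρ : ℝ) : Prop :=
  ∃ v w, deg w < deg v ∧ (∀ v' w', deg v' < deg w' + (deg v - deg w) → ∀ j ≤ J,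
    |P j v' w' - P 0 v' w'| ≤ η / 2) ∧ Rich (fun j => P j v w) R J ρ

theorem abs_zero_le {D : ℕ} (hD : ∀ v w, deg v ≤ deg w + D) {P : ℕ → Matrix V V ℝ}
    (hP : PS deg P) (hred : Red deg P D) (v w : V) : |P 0 v w| ≤ 1 := by
  by_cases hvw : v = w
  · rw [hvw, (hP.uni 0).1, abs_one]
  rcases le_or_gt (deg v) (deg w) with h2 | h2
  · rw [(hP.uni 0).2 v w hvw h2, abs_zero]
    exact zero_le_one
  · have h5 : -(1 / 2) ≤ P 0 v w ∧ P 0 v w < 1 / 2 := hred v w h2 (hD v w) 0 (Nat.zero_le _)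
    rw [abs_le]
    constructor <;> linarith

theorem colouring {D : ℕ} (hD : ∀ v w, deg v ≤ deg w + D) {I : Type} [Fintype I] [DecidableEq I]
    (J R Q : I → ℕ) (hQ : ∀ i, 0 < Q i) {G : ℕ} (hG : 0 < G) {η ρ : ℝ} (hη : 0 ≤ η) (hη1 : η ≤ 1)
    (h1 : ∀ i, Fintype.card V * ((D + 1) * (((J i : ℝ) + 1) ^ D * (1 / Q i)) *
      (((Fintype.card V : ℝ) + 2) * ((D + 1) * ((J i : ℝ) + 1) ^ D)) ^ D) ≤ 1)
    (h2 : ∀ i, (G : ℝ) * (Fintype.card V * ((Fintype.card V *
      ((D + 1) * (((J i : ℝ) + 1) ^ D * (1 / Q i)) *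
      (((Fintype.card V : ℝ) + 2) * ((D + 1) * ((J i : ℝ) + 1) ^ D)) ^ D)) * CB V D)) ≤ 1)
    (h3 : 3 / (G : ℝ) + (1 + Fintype.card V * (Fintype.card V * ((CB V D : ℝ) * CB V D))) * η < ρ)
    (h4 : ∑ i, (Q i : ℝ) ^ ((D + 1) * Fintype.card V * Fintype.card V) *
      (2 * (1 - 1 / 2 ^ (bsz deg D)) ^ (R i)) < 1) :
    ∃ F : (V → V → ℤ) → Bool, ∀ i, ∀ P : ℕ → Matrix V V ℝ, PS deg P → Red deg P D →
      Spread deg P (R i) (J i) η ρ → ∀ b : Bool, ∃ j ≤ J i, F (cell deg G (P j)) = b := by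
  classical
  let E : I → Type := fun i => {g : V → V → Fin (D + 1) → Fin (Q i) //
    ∃ P : ℕ → Matrix V V ℝ, PS deg P ∧ Red deg P D ∧ Spread deg P (R i) (J i) η ρ ∧
      tp D (Q i) (hQ i) P = g}
  have hfin : ∀ i, Fintype (E i) := fun i => Fintype.ofFinite _
  have hcard : ∀ i, (Fintype.card (E i) : ℝ) ≤
      (Q i : ℝ) ^ ((D + 1) * Fintype.card V * Fintype.card V) := by
    intro i
    have e1 : Fintype.card (E i) ≤ Fintype.card (V → V → Fin (D + 1) → Fin (Q i)) :=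
      Fintype.card_subtype_le _
    rw [Fintype.card_fun, Fintype.card_fun, Fintype.card_fun, Fintype.card_fin, Fintype.card_fin,
      ← pow_mul, ← pow_mul, ← mul_assoc] at e1
    exact_mod_cast e1
  choose Pe hPe1 hPe2 hPe3 hPe4 using fun (i : I) (g : E i) => g.2
  choose ve we hvw hlow te hte hsep using hPe3
  have hlam : (0 : ℝ) ≤ 1 - 1 / 2 ^ (bsz deg D) := by
    rw [sub_nonneg, div_le_one (by positivity)]
    exact one_le_pow₀ (by norm_num)
  obtain ⟨F, hF⟩ := exists_colouring' (Ω := V → V → ℤ) (E := Σ i, E i) (bsz deg D)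
    (fun e => R e.1)
    (fun e a => if h : a < R e.1 then blk deg D G (Pe e.1 e.2 (te e.1 e.2 ⟨a, h⟩)) else ∅)
    (by
      intro e a ha
      rw [dif_pos ha]
      exact card_blk _ _ _)
    (by
      intro e a ha a' ha' hne
      rw [dif_pos ha, dif_pos ha']
      have hne' : (⟨a, ha⟩ : Fin (R e.1)) ≠ ⟨a', ha'⟩ := fun h => hne (congrArg Fin.val h)
      have hs := hsep e.1 e.2 _ _ hne'
      have hv := hvw e.1 e.2
      have hDv := hD (ve e.1 e.2) (we e.1 e.2)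
      refine blk_disjoint (k := deg (ve e.1 e.2) - deg (we e.1 e.2)) hG ((hPe1 e.1 e.2).uni _)
        ((hPe1 e.1 e.2).uni _) (by omega) (by omega) hη ?_ ?_ h3
        ⟨ve e.1 e.2, we e.1 e.2, by omega, hs⟩
      · intro v w hd
        have g1 := hlow e.1 e.2 v w hd _ (hte e.1 e.2 ⟨a, ha⟩)
        have g2 := hlow e.1 e.2 v w hd _ (hte e.1 e.2 ⟨a', ha'⟩)
        rw [abs_le] at g1 g2 ⊢
        constructor <;> linarith
      · intro v w hd
        have g1 := hlow e.1 e.2 v w hd _ (hte e.1 e.2 ⟨a, ha⟩)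
        have g2 := abs_zero_le hD (hPe1 e.1 e.2) (hPe2 e.1 e.2) v w
        rw [abs_le] at g1 g2 ⊢
        constructor <;> linarith)
    (by
      rw [Fintype.sum_sigma]
      refine lt_of_le_of_lt (sum_le_sum fun i _ => ?_) h4
      simp only [sum_const, card_univ, nsmul_eq_mul]
      exact mul_le_mul_of_nonneg_right (hcard i) (by positivity))
  refine ⟨F, fun i P hP hred hs b => ?_⟩
  set g : E i := ⟨tp D (Q i) (hQ i) P, P, hP, hred, hs, rfl⟩ with hg
  obtain ⟨a, ha, hz⟩ := hF ⟨i, g⟩ b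
  simp only at ha
  rw [dif_pos ha] at hz
  have hj := hte i g ⟨a, ha⟩
  refine ⟨te i g ⟨a, ha⟩, hj, hz _ ?_⟩
  have hJ0 : (0 : ℝ) ≤ J i := Nat.cast_nonneg _
  have hQr : (0 : ℝ) < Q i := by exact_mod_cast hQ i
  refine mem_blk hD (hP.uni _) ((hPe1 i g).uni _) (B := (D + 1) * ((J i : ℝ) + 1) ^ D)
    (e := (D + 1) * (((J i : ℝ) + 1) ^ D * (1 / Q i))) ?_ (by positivity)
    (fun v w => seq_bound hD (hPe1 i g) (hPe2 i g) hj v w)
    (fun v w => seq_close hD hP hred (hPe1 i g) (hPe2 i g) (hQ i) (hPe4 i g).symm hj v w)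
    (h1 i) (h2 i)
  have g1 : (1 : ℝ) ≤ ((J i : ℝ) + 1) ^ D := one_le_pow₀ (by linarith)
  have hD0 : (0 : ℝ) ≤ D := Nat.cast_nonneg _
  nlinarith

end Pool.Agent.TH91.NB
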