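import Pool.Agent.TH91.NB.A7

/-!
# Leading coefficients, dilations and exponentials
-/

set_option autoImplicit false

namespace Pool.Agent.TH91.NB

open Finset Pool.Agent.W97.TL

variable {V : Type} [Fintype V] [DecidableEq V] {deg : V → ℕ}

/-- the matrix of the leading coefficients of a polynomial sequence -/
noncomputable def lead (deg : V → ℕ) (P : ℕ → Matrix V V ℝ) : Matrix V V ℝ :=
  fun v w => if v = w then 1 else if deg w < deg v then
    bc (deg v - deg w) (fun j => P j v w) / ((deg v - deg w).factorial : ℝ) else 0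

theorem lead_uni (P : ℕ → Matrix V V ℝ) : Uni deg (lead deg P) := by
  constructor
  · intro v
    unfold lead
    rw [if_pos rfl]
  · intro v w hvw hd
    unfold lead
    rw [if_neg hvw, if_neg (by omega)]

theorem lead_apply (P : ℕ → Matrix V V ℝ) {v w : V} (h : deg w < deg v) :
    lead deg P v w = bc (deg v - deg w) (fun j => P j v w) / ((deg v - deg w).factorial : ℝ) := by
  unfold lead
  rw [if_neg (by rintro rfl; omega), if_pos h]

theorem lead_mul {P Q : ℕ → Matrix V V ℝ} (hP : PS deg P) (hQ : PS deg Q) :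
    lead deg (fun j => P j * Q j) = lead deg P * lead deg Q := by
  ext v w
  by_cases hvw : v = w
  · rw [hvw, (lead_uni _).1, ((lead_uni P).mul (lead_uni Q)).1]
  rcases le_or_gt (deg v) (deg w) with h2 | h2
  · rw [(lead_uni _).2 v w hvw h2, ((lead_uni P).mul (lead_uni Q)).2 v w hvw h2]
  rw [mul_entry (lead_uni P) (lead_uni Q) hvw, lead_apply _ h2, lead_apply _ h2, lead_apply _ h2]
  have e : (fun j => (P j * Q j) v w) = (fun j => P j v w) + (fun j => Q j v w) +
      ∑ u ∈ mid deg v w, (fun j => P j v u) * (fun j => Q j u w) := by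
    funext j
    rw [mul_entry (hP.uni j) (hQ.uni j) hvw]
    simp only [Pi.add_apply, Finset.sum_apply, Pi.mul_apply]
  rw [e, map_add, map_add, map_sum, add_div, add_div, sum_div]
  congr 1
  refine sum_congr rfl fun u hu => ?_
  rw [mem_mid] at hu
  rw [lead_apply _ hu.2, lead_apply _ hu.1]
  have h3 := (hP.poly v u).bc_mul (hQ.poly u w)
  have h4 : deg v - deg u + (deg u - deg w) = deg v - deg w := by omega
  rw [h4] at h3
  rw [h3, Nat.choose_eq_factorial_div_factorial (by omega),
    Nat.cast_div (Nat.factorial_mul_factorial_dvd_factorial (by omega)) (by positivity)]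
  have h5 : deg v - deg w - (deg v - deg u) = deg u - deg w := by omega
  rw [h5]
  have g1 : (((deg v - deg w).factorial : ℕ) : ℝ) ≠ 0 := by positivity
  have g2 : (((deg v - deg u).factorial : ℕ) : ℝ) ≠ 0 := by positivity
  have g3 : (((deg u - deg w).factorial : ℕ) : ℝ) ≠ 0 := by positivity
  push_cast
  field_simp

/-- dilations -/
def dil (deg : V → ℕ) (c : ℝ) (A : Matrix V V ℝ) : Matrix V V ℝ :=
  fun v w => c ^ (deg v - deg w) * A v w

omit [Fintype V] [DecidableEq V] in
theorem dil_apply (c : ℝ) (A : Matrix V V ℝ) (v w : V) :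
    dil deg c A v w = c ^ (deg v - deg w) * A v w := rfl

theorem dil_mul {A B : Matrix V V ℝ} (hA : Uni deg A) (hB : Uni deg B) (c : ℝ) :
    dil deg c A * dil deg c B = dil deg c (A * B) := by
  ext v w
  rw [Matrix.mul_apply, dil_apply, Matrix.mul_apply, mul_sum]
  refine sum_congr rfl fun u _ => ?_
  rw [dil_apply, dil_apply]
  by_cases h1 : v = u
  · subst h1
    rw [Nat.sub_self, pow_zero]
    ring
  by_cases h2 : u = w
  · subst h2
    rw [Nat.sub_self, pow_zero]
    ring
  rcases le_or_gt (deg v) (deg u) with h3 | h3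
  · rw [hA.2 v u h1 h3]
    ring
  rcases le_or_gt (deg u) (deg w) with h4 | h4
  · rw [hB.2 u w h2 h4]
    ring
  have h5 : deg v - deg w = (deg v - deg u) + (deg u - deg w) := by omega
  rw [h5, pow_add]
  ring

theorem dil_uni {A : Matrix V V ℝ} (hA : Uni deg A) (c : ℝ) : Uni deg (dil deg c A) := by
  constructor
  · intro v
    unfold dil
    rw [Nat.sub_self, pow_zero, hA.1, mul_one]
  · intro v w hvw hd
    unfold dil
    rw [hA.2 v w hvw hd, mul_zero]

/-! ### exponentials -/

/-- the one-parameter group -/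
noncomputable def ex (X : Matrix V V ℝ) (t : ℝ) : Matrix V V ℝ := IsNilpotent.exp (t • X)

theorem ex_entry {X : Matrix V V ℝ} (hX : Hom1 deg X) (t : ℝ) (v w : V) :
    ex X t v w = if deg w ≤ deg v then
      t ^ (deg v - deg w) * (((deg v - deg w).factorial : ℝ)⁻¹ * (X ^ (deg v - deg w)) v w) else 0 := by
  have hz : X ^ (univ.sup deg + 1) = 0 := by
    ext v w
    by_contra hvw
    have h1 := hX.pow_entry _ v w hvw
    have h2 : deg v ≤ Finset.univ.sup deg := Finset.le_sup (Finset.mem_univ v)
    omega
  unfold ex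
  rw [IsNilpotent.exp_eq_sum (k := univ.sup deg + 1) (by rw [smul_pow, hz, smul_zero]),
    Matrix.sum_apply]
  have h1 : ∀ i, (((i.factorial : ℚ)⁻¹ • (t • X) ^ i) : Matrix V V ℝ) v w =
      t ^ i * ((i.factorial : ℝ)⁻¹ * (X ^ i) v w) := by
    intro i
    rw [smul_pow, Matrix.smul_apply, Matrix.smul_apply, Rat.smul_def, smul_eq_mul]
    push_cast
    ring
  simp_rw [h1]
  have h2 : ∀ i, deg v ≠ deg w + i → (X ^ i) v w = 0 := by
    intro i hi
    by_contra h3
    exact hi (hX.pow_entry i v w h3)
  split_ifs with h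
  · rw [sum_eq_single_of_mem (deg v - deg w)]
    · rw [mem_range]
      have h2 : deg v ≤ Finset.univ.sup deg := Finset.le_sup (Finset.mem_univ v)
      omega
    · intro i _ hne
      rw [h2 i (by omega), mul_zero, mul_zero]
  · exact sum_eq_zero fun i _ => by rw [h2 i (by omega), mul_zero, mul_zero]

theorem ex_uni {X : Matrix V V ℝ} (hX : Hom1 deg X) (t : ℝ) : Uni deg (ex X t) := by
  constructor
  · intro v
    rw [ex_entry hX, if_pos le_rfl, Nat.sub_self]
    simp
  · intro v w hvw hd
    rw [ex_entry hX]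
    split_ifs with h
    · have : deg v - deg w = 0 := by omega
      rw [this, _root_.pow_zero, _root_.pow_zero, Matrix.one_apply_ne hvw, mul_zero, mul_zero]
    · rfl

theorem ex_dil {X : Matrix V V ℝ} (hX : Hom1 deg X) (c t : ℝ) :
    dil deg c (ex X t) = ex X (c * t) := by
  ext v w
  unfold dil
  rw [ex_entry hX, ex_entry hX]
  split_ifs with h
  · rw [mul_pow]
    ring
  · rw [mul_zero]

/-- along a progression the one-parameter group is a polynomial sequence -/
theorem ps_ex {X : Matrix V V ℝ} (hX : Hom1 deg X) (A B : ℝ) :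
    PS deg (fun j => ex X (A + j * B)) ∧ lead deg (fun j => ex X (A + j * B)) = ex X B := by
  have key : ∀ v w, deg w ≤ deg v → (fun j : ℕ => ex X (A + j * B) v w) =
      (((deg v - deg w).factorial : ℝ)⁻¹ * (X ^ (deg v - deg w)) v w) •
        (fun j : ℕ => (A + j * B) ^ (deg v - deg w)) := by
    intro v w h
    funext j
    rw [ex_entry hX, if_pos h, Pi.smul_apply, smul_eq_mul, mul_comm]
  refine ⟨⟨fun j => ex_uni hX _, fun v w => ?_⟩, ?_⟩
  · rcases le_or_gt (deg w) (deg v) with h | h
    · rw [key v w h]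
      exact (poly_linear_pow A B _).1.smul _
    · have e : (fun j : ℕ => ex X (A + j * B) v w) = fun _ => 0 := by
        funext j
        rw [ex_entry hX, if_neg (by omega)]
      rw [e]
      exact poly_const _ _
  · ext v w
    by_cases hvw : v = w
    · rw [hvw, (lead_uni _).1, (ex_uni hX B).1]
    rcases le_or_gt (deg v) (deg w) with h2 | h2
    · rw [(lead_uni _).2 v w hvw h2, (ex_uni hX B).2 v w hvw h2]
    · rw [lead_apply _ h2, key v w h2.le, map_smul, (poly_linear_pow A B _).2, ex_entry hX,
        if_pos h2.le, smul_eq_mul]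
      have g1 : (((deg v - deg w).factorial : ℕ) : ℝ) ≠ 0 := by positivity
      field_simp

end Pool.Agent.TH91.NB
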