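import Pool.Agent.TH91.NB.A8
import Pool.Agent.TH111.J925
import Pool.Agent.W97.TL.Rec

/-!
# The core theorem
-/

set_option autoImplicit false

namespace Pool.Agent.TH91.NB

open Finset Pool.Agent.W97.TL

/-- the constant for the fineness of the grid -/
def C4 (n D cb : ℕ) : ℕ :=
  96 * 4 ^ D * (n * n * cb) * ((D + 1) * ((n + 2) * (D + 1)) ^ D) * 2 ^ (D + D * D)

/-- the constant for the slow variation -/
def C3 (n D cb : ℕ) : ℕ := (D + 1) * 2 ^ D * (128 * 4 ^ D) * (1 + n * (n * (cb * cb)))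

theorem fine_ok (n D cb K J Cc : ℕ) (hcb : 0 < cb) (hK : 0 < K) (hJ : 0 < J)
    (hC : C4 n D cb ≤ Cc) :
    ((n : ℝ) * ((D + 1) * (((J : ℝ) + 1) ^ D * (1 / ((Cc * K * J ^ (D + D * D) + 1 : ℕ) : ℝ))) *
      (((n : ℝ) + 2) * ((D + 1) * ((J : ℝ) + 1) ^ D)) ^ D) ≤ 1) ∧
    (((96 * 4 ^ D * K : ℕ) : ℝ) * (n * ((n *
      ((D + 1) * (((J : ℝ) + 1) ^ D * (1 / ((Cc * K * J ^ (D + D * D) + 1 : ℕ) : ℝ))) *
      (((n : ℝ) + 2) * ((D + 1) * ((J : ℝ) + 1) ^ D)) ^ D)) * cb)) ≤ 1) := by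
  set Q : ℕ := Cc * K * J ^ (D + D * D) + 1 with hQ
  have hQr : (0 : ℝ) < Q := by exact_mod_cast Nat.succ_pos _
  set T : ℕ := (D + 1) * ((n + 2) * (D + 1)) ^ D * (J + 1) ^ (D + D * D) with hT
  have e : ((D + 1) * (((J : ℝ) + 1) ^ D * (1 / (Q : ℝ))) *
      (((n : ℝ) + 2) * ((D + 1) * ((J : ℝ) + 1) ^ D)) ^ D) = (T : ℝ) / Q := by
    rw [hT]
    push_cast
    rw [mul_pow ((n : ℝ) + 2), mul_pow ((D : ℝ) + 1), ← pow_mul, pow_add, mul_pow ((n : ℝ) + 2)]
    ring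
  rw [e]
  have hT2 : 96 * 4 ^ D * K * (n * n * T * cb) ≤ Q := by
    have h1 : (J + 1) ^ (D + D * D) ≤ (2 * J) ^ (D + D * D) := Nat.pow_le_pow_left (by omega) _
    have h2 : T ≤ (D + 1) * ((n + 2) * (D + 1)) ^ D * (2 * J) ^ (D + D * D) :=
      Nat.mul_le_mul_left _ h1
    calc 96 * 4 ^ D * K * (n * n * T * cb) ≤
        96 * 4 ^ D * K * (n * n * ((D + 1) * ((n + 2) * (D + 1)) ^ D *
          (2 * J) ^ (D + D * D)) * cb) := by gcongr
      _ = C4 n D cb * K * J ^ (D + D * D) := by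
        unfold C4
        rw [mul_pow 2 J]
        ring
      _ ≤ Cc * K * J ^ (D + D * D) := by gcongr
      _ ≤ Q := by omega
  have hn : n * T ≤ Q := by
    refine le_trans ?_ hT2
    rcases Nat.eq_zero_or_pos n with rfl | hn
    · simp
    have h1 : 1 ≤ 96 * 4 ^ D * K := Nat.mul_pos (Nat.mul_pos (by norm_num) (by positivity)) hK
    have h2 : n * T ≤ n * n * T * cb := by
      calc n * T = n * T * 1 := (mul_one _).symm
        _ ≤ n * T * (n * cb) := Nat.mul_le_mul_left _ (Nat.mul_pos hn hcb)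
        _ = n * n * T * cb := by ring
    calc n * T ≤ n * n * T * cb := h2
      _ = 1 * (n * n * T * cb) := (one_mul _).symm
      _ ≤ 96 * 4 ^ D * K * (n * n * T * cb) := Nat.mul_le_mul_right _ h1
  constructor
  · rw [← mul_div_assoc, div_le_one hQr]
    exact_mod_cast hn
  · have e2 : ((96 * 4 ^ D * K : ℕ) : ℝ) * (n * ((n * ((T : ℝ) / Q)) * cb)) =
        ((96 * 4 ^ D * K * (n * n * T * cb) : ℕ) : ℝ) / Q := by
      push_cast
      ring
    rw [e2, div_le_one hQr]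
    exact_mod_cast hT2

variable {V : Type} [Fintype V] [DecidableEq V] {deg : V → ℕ}

theorem Small.mono {D : ℕ} {P : ℕ → Matrix V V ℝ} {n : ℕ} {θ θ' : ℝ} (h : Small deg D P n θ)
    (hθ : θ ≤ θ') : Small deg D P n θ' :=
  fun v w h1 i h2 h3 h4 => (h v w h1 i h2 h3 h4).trans hθ

theorem trc_zero (f : ℕ → ℝ) (j : ℕ) : trc 0 f j = f 0 := by
  unfold trc
  rw [zero_add, sum_range_one]
  simp [bc_zero]

/-- the slow entries -/
theorem slow {D : ℕ} (hD : ∀ v w, deg v ≤ deg w + D) {P : ℕ → Matrix V V ℝ} (hP : PS deg P)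
    {n : ℕ} {θ : ℝ} (hθ : 0 ≤ θ) (hs : Small deg D P n θ) {k i : ℕ} (hi : i ≤ D)
    (hrk : rk D k i = n) {J : ℕ} {η : ℝ} (hη : (D + 1) * (((J : ℝ) + 1) ^ D * θ) ≤ η) :
    ∀ v w, deg v < deg w + k → ∀ j ≤ J, |P j v w - P 0 v w| ≤ η := by
  intro v w hd j hj
  have hη0 : 0 ≤ η := le_trans (by positivity) hη
  by_cases hvw : v = w
  · rw [hvw, (hP.uni j).1, (hP.uni 0).1, sub_self, abs_zero]
    exact hη0
  rcases le_or_gt (deg v) (deg w) with h2 | h2
  · rw [(hP.uni j).2 v w hvw h2, (hP.uni 0).2 v w hvw h2, sub_self, abs_zero]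
    exact hη0
  have hDvw := hD v w
  have h3 := tail_le (i := 0) (k := deg v - deg w) (D := D) (by omega) (hP.poly v w) hθ (by
    intro i' h4 h5
    refine hs v w h2 i' (by omega) h5 ?_
    unfold rk at hrk ⊢
    have h6 : (deg v - deg w + 1) * (D + 1) ≤ k * (D + 1) := Nat.mul_le_mul_right _ (by omega)
    have h7 : (deg v - deg w + 1) * (D + 1) = (deg v - deg w) * (D + 1) + (D + 1) := by ring
    omega) j
  rw [Pi.sub_apply, trc_zero] at h3
  refine h3.trans (le_trans ?_ hη)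
  have : (j : ℝ) ≤ J := by exact_mod_cast hj
  gcongr

theorem cell_mul (G : ℕ) {x γ : Matrix V V ℝ} (hx : Uni deg x) (hγ : Uni deg γ) (hi : IntM γ) :
    cell deg G (x * γ) = cell deg G x := by
  unfold cell
  rw [red_mul hx hγ hi]

theorem rich_spread {D : ℕ} (hD : ∀ v w, deg v ≤ deg w + D) {P : ℕ → Matrix V V ℝ}
    (hP : PS deg P) {n : ℕ} {θ : ℝ} (hθ : 0 ≤ θ) (hs : Small deg D P n θ) {m K R RB : ℕ}
    (hR : 0 < R) (hRB : 0 < RB) (hK : 0 < K) {δ : ℝ} (hδ : 0 < δ)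
    (hbig : ∃ v w, deg w < deg v ∧ ∃ i, 1 ≤ i ∧ i ≤ deg v - deg w ∧ rk D (deg v - deg w) i = n ∧
      δ ≤ nn (m.factorial * bc i (fun j => P j v w)))
    (h1 : R ^ (2 ^ D) ≤ m + 1) (h2 : RB ^ (2 ^ D) ≤ K) {η : ℝ}
    (hτ : (D + 1) * (((hor D m δ : ℝ) + 1) ^ D * θ) ≤ sep D K / 2)
    (hη : (D + 1) * (((hor D m δ : ℝ) + 1) ^ D * θ) ≤ η / 2) :
    Spread deg P R (m + D) η (sep D K) ∨ Spread deg P RB (hor D m δ) η (sep D K) := by
  obtain ⟨v, w, hvw, i, hi1, hi2, hrk, hb⟩ := hbig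
  have hDvw := hD v w
  have hslow := slow hD hP hθ hs (i := i) (by omega) hrk hη
  have h3 := rich_stage (k := deg v - deg w) (i := i) (by omega) hi1 hi2 (hP.poly v w) hθ (by
    intro i' h4 h5
    refine hs v w hvw i' (by omega) h5 ?_
    unfold rk at hrk ⊢
    omega) hR hRB hK hδ hb h1 h2 hτ
  rcases h3 with h3 | h3
  · exact Or.inl ⟨v, w, hvw, fun v' w' hd j hj => hslow v' w' hd j (hj.trans (le_hor D m δ)), h3⟩
  · exact Or.inr ⟨v, w, hvw, fun v' w' hd j hj => hslow v' w' hd j hj, h3⟩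

theorem CB_pos (V : Type) [Fintype V] (D : ℕ) : 0 < CB V D := by
  unfold CB
  positivity

/-- The final step: nearly constant polynomial sequences give returns. -/
theorem final_step {D : ℕ} (hD : ∀ v w, deg v ≤ deg w + D) {X : Matrix V V ℝ} (hX : Hom1 deg X)
    (A B : ℝ) (M : ℕ) (Q : ℕ → Matrix V V ℝ) (hQ : PS deg Q) (hi : ∀ j, IntM (Q j)) {θ : ℝ}
    (hθ : 0 ≤ θ)
    (h : ∀ v w, deg w < deg v →
      |bc (deg v - deg w) (fun j => (ex X (A + ((M * j : ℕ) : ℝ) * B) * Q j) v w)| ≤ θ) :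
    ∃ γ : Matrix V V ℝ, Uni deg γ ∧ IntM γ ∧ ∀ v w,
      |(ex X (D.factorial * (M * B)) * γ) v w - (1 : Matrix V V ℝ) v w| ≤
        (D.factorial : ℝ) ^ D * θ := by
  have hF1 : (1 : ℝ) ≤ (D.factorial : ℝ) := by exact_mod_cast Nat.factorial_pos D
  have hps := ps_ex hX A (M * B)
  have e0 : (fun j : ℕ => ex X (A + ((M * j : ℕ) : ℝ) * B)) =
      fun j : ℕ => ex X (A + (j : ℝ) * (M * B)) := by
    funext j
    congr 1
    push_cast
    ring
  have hl : lead deg (fun j => ex X (A + ((M * j : ℕ) : ℝ) * B) * Q j) =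
      ex X (M * B) * lead deg Q := by
    have h1 := lead_mul hps.1 hQ
    rw [hps.2] at h1
    rw [← h1]
    congr 1
    funext j
    rw [congrFun e0 j]
  refine ⟨dil deg D.factorial (lead deg Q), dil_uni (lead_uni Q) _, ?_, ?_⟩
  · intro v w
    rw [dil_apply]
    by_cases hvw : v = w
    · refine ⟨1, ?_⟩
      rw [hvw, Nat.sub_self, pow_zero, (lead_uni Q).1]
      norm_num
    rcases le_or_gt (deg v) (deg w) with h2 | h2
    · refine ⟨0, ?_⟩
      rw [(lead_uni Q).2 v w hvw h2, mul_zero]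
      norm_num
    rw [lead_apply _ h2]
    obtain ⟨z, hz⟩ := bc_int (fun j => Q j v w) (fun j => hi j v w) (deg v - deg w)
    have hDvw := hD v w
    obtain ⟨c, hc⟩ : (deg v - deg w).factorial ∣ D.factorial :=
      Nat.factorial_dvd_factorial (by omega)
    obtain ⟨l, hl'⟩ : ∃ l, deg v - deg w = l + 1 := ⟨deg v - deg w - 1, by omega⟩
    refine ⟨(D.factorial : ℤ) ^ l * c * z, ?_⟩
    rw [hz]
    have g1 : (((deg v - deg w).factorial : ℕ) : ℝ) ≠ 0 := by positivity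
    have g2 : (D.factorial : ℝ) = ((deg v - deg w).factorial : ℝ) * c := by exact_mod_cast hc
    push_cast
    have e3 : (D.factorial : ℝ) ^ (deg v - deg w) = (D.factorial : ℝ) ^ l * D.factorial := by
      rw [hl', pow_succ]
    rw [e3]
    nth_rewrite 2 [g2]
    field_simp
  · intro v w
    have e1 : ex X (D.factorial * (M * B)) * dil deg D.factorial (lead deg Q) =
        dil deg D.factorial (lead deg (fun j => ex X (A + ((M * j : ℕ) : ℝ) * B) * Q j)) := by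
      rw [hl, ← dil_mul (ex_uni hX _) (lead_uni Q), ex_dil hX]
    rw [e1, dil_apply]
    by_cases hvw : v = w
    · rw [hvw, Nat.sub_self, pow_zero, (lead_uni _).1, Matrix.one_apply_eq, one_mul, sub_self,
        abs_zero]
      positivity
    rw [Matrix.one_apply_ne hvw, sub_zero]
    rcases le_or_gt (deg v) (deg w) with h2 | h2
    · rw [(lead_uni _).2 v w hvw h2, mul_zero, abs_zero]
      positivity
    rw [lead_apply _ h2, abs_mul, abs_div, abs_pow, Nat.abs_cast, Nat.abs_cast]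
    have hDvw := hD v w
    have hf : (1 : ℝ) ≤ (((deg v - deg w).factorial : ℕ) : ℝ) := by
      exact_mod_cast Nat.factorial_pos _
    refine mul_le_mul (pow_le_pow_right₀ hF1 (by omega)) ?_ (by positivity) (by positivity)
    rw [div_le_iff₀ (by linarith)]
    have := h v w h2
    nlinarith

end Pool.Agent.TH91.NB
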