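import Pool.Agent.TH91.NB.A10
import Pool.Agent.TH365.J886
import Pool.Agent.TH858.J1002
import Pool.Agent.TH444.J1003

/-!
# Two-large sets and recurrence for images of unitriangular matrix groups
-/

set_option autoImplicit false

namespace Pool.Agent.TH91.NB

open Pool.Agent.W97.TL

theorem core (S : Set ℕ) (hS : TwoLarge S) {N : ℕ} (G Γ : Subgroup (Matrix (Fin N) (Fin N) ℝ)ˣ)
    (hΓ : Γ ≤ G) (hG : ∀ g ∈ G, (∀ i, (g : Matrix (Fin N) (Fin N) ℝ) i i = 1) ∧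
        ∀ i j, j < i → (g : Matrix (Fin N) (Fin N) ℝ) i j = 0) (C : ℝ)
    (hC : ∀ g ∈ G, ∃ γ ∈ Γ, ∀ i j, |((g * γ : (Matrix (Fin N) (Fin N) ℝ)ˣ) :
      Matrix (Fin N) (Fin N) ℝ) i j| ≤ C)
    (g : (Matrix (Fin N) (Fin N) ℝ)ˣ) (hg : g ∈ G) (ε : ℝ) (hε : 0 < ε) :
    ∃ s ∈ S, ∃ γ ∈ Γ, ∀ i j, |((g ^ s * γ : (Matrix (Fin N) (Fin N) ℝ)ˣ) :
      Matrix (Fin N) (Fin N) ℝ) i j - (1 : Matrix (Fin N) (Fin N) ℝ) i j| < ε :=
  nil_core S (fun V _ _ deg X hX ε hε => main_hom hS V deg X hX ε hε)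
    (fun V _ _ deg r ξ hξ => Pool.Agent.TH365.J886.exists_dil deg ξ hξ) G Γ hΓ hG C hC g hg ε hε

/-- Let `S` be 2-large.  Let `H` be a group of upper unitriangular real matrices, `G` a
topological group, `φ : H → G` a continuous and open homomorphism, and `Γ` a subgroup of `G` with
`G / Γ` compact.  Then for every `g` in the image of `φ`, every point `x` of `G / Γ` and every open
`U ∋ x` there is `s ∈ S` with `g ^ s x ∈ U`. -/
theorem matrix_result (S : Set ℕ) (hS : TwoLarge S) (N : ℕ)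
    (H : Subgroup (Matrix (Fin N) (Fin N) ℝ)ˣ)
    (hH : ∀ h ∈ H, (∀ i, (h : Matrix (Fin N) (Fin N) ℝ) i i = 1) ∧
        ∀ i j, j < i → (h : Matrix (Fin N) (Fin N) ℝ) i j = 0)
    (G : Type*) [Group G] [TopologicalSpace G] [IsTopologicalGroup G] (φ : H →* G)
    (hφ : Continuous φ) (hφ' : IsOpenMap φ) (Γ : Subgroup G) (hc : CompactSpace (G ⧸ Γ))
    (h : H) (x : G ⧸ Γ) (U : Set (G ⧸ Γ)) (hU : IsOpen U) (hx : x ∈ U) :
    ∃ s ∈ S, (φ h) ^ s • x ∈ U :=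
  Pool.Agent.TH444.NB.nil_rec S (fun G Γ h1 h2 C h3 g hg ε hε =>
    core S hS G Γ h1 h2 C h3 g hg ε hε) N H hH G φ hφ hφ' Γ hc h x U hU hx

end Pool.Agent.TH91.NB
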